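import Pool.Agent.Work.MP_5f857a_co.M.Defs
import Pool.Agent.Work.MP_5f857a_co.L.GeoF

/-!
MODULE AntiF (S): the antipodal structure of a centrally symmetric polytope, and `0 ∉ V`.

`affA V` = the functions `x ↦ f x - c` (`L/GeoF`).
* `affA_Anti`: `inv`: `- - x = x`; `one`: `f = 0`, `c = -1`; `comp`: `f (-x) - c = (-f) x - c`; `const`:
  `(f x - c) + (f (-x) - c) = - 2 c`.
* `zero_not_mem`: `V` spans the space affinely and `0 < d`, so `V` contains some `u ≠ 0` (otherwise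
  `V ⊆ {0}` and its affine span is not everything); if `0 ∈ V` then `0 = (u + (-u))/2` is in the convex hull of
  `V \ {0}`, against `hconv`.
-/

set_option autoImplicit false

namespace Pool.Agent.Work.MP_5f857a_co.M

open Pool.Agent.Work.MP_5f857a_co.L

variable {d : ℕ}

theorem affA_Anti (V : Finset (EuclideanSpace ℝ (Fin d))) (hV : ∀ v ∈ V, -v ∈ V) :
    Anti (affA V) (fun x : {x // x ∈ V} => (⟨-x.1, hV x.1 x.2⟩ : {x // x ∈ V})) where
  inv x := Subtype.ext (neg_neg _)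
  one := by
    refine ⟨(0, -1), ?_⟩
    funext x
    simp [affMap]
  comp := by
    rintro f ⟨⟨g, c⟩, rfl⟩
    refine ⟨(-g, c), ?_⟩
    funext x
    simp [affMap]
  const := by
    rintro f ⟨⟨g, c⟩, rfl⟩
    refine ⟨-2 * c, fun x => ?_⟩
    simp only [affMap, LinearMap.coe_mk, AddHom.coe_mk, map_neg]
    ring

theorem zero_not_mem (hd : 0 < d) (V : Finset (EuclideanSpace ℝ (Fin d))) (hV : ∀ v ∈ V, -v ∈ V)
    (hconv : ∀ v ∈ V, v ∉ convexHull ℝ ((V : Set (EuclideanSpace ℝ (Fin d))) \ {v}))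
    (hspan : affineSpan ℝ (V : Set (EuclideanSpace ℝ (Fin d))) = ⊤) :
    (0 : EuclideanSpace ℝ (Fin d)) ∉ V := by
  intro h0
  -- a nonzero vertex
  obtain ⟨u, hu, hu0⟩ : ∃ u ∈ V, u ≠ 0 := by
    by_contra hcon
    push Not at hcon
    have h1 : (V : Set (EuclideanSpace ℝ (Fin d))) ⊆ {0} := by
      intro x hx
      exact hcon x hx
    have h2 := affineSpan_mono ℝ h1
    rw [hspan] at h2
    have h3 : (EuclideanSpace.single (⟨0, hd⟩ : Fin d) (1 : ℝ)) ∈
        affineSpan ℝ ({0} : Set (EuclideanSpace ℝ (Fin d))) :=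
      h2 (AffineSubspace.mem_top _ _ _)
    rw [← SetLike.mem_coe, AffineSubspace.coe_affineSpan_singleton, Set.mem_singleton_iff] at h3
    have h4 := congrArg (fun v : EuclideanSpace ℝ (Fin d) => v ⟨0, hd⟩) h3
    simp at h4
  apply hconv 0 h0
  have h1 : u ∈ (V : Set (EuclideanSpace ℝ (Fin d))) \ {0} := ⟨hu, hu0⟩
  have h2 : -u ∈ (V : Set (EuclideanSpace ℝ (Fin d))) \ {0} := ⟨hV u hu, by simpa using hu0⟩
  have h3 := (convex_convexHull ℝ ((V : Set (EuclideanSpace ℝ (Fin d))) \ {0})).midpoint_mem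
    (subset_convexHull ℝ _ h1) (subset_convexHull ℝ _ h2)
  rwa [midpoint_self_neg] at h3

end Pool.Agent.Work.MP_5f857a_co.M
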