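import Pool.Agent.Work.MP_5f857a_co.M.Ridge

/-!
MODULE Hyper (M, linear algebra): a generic projection of a centrally symmetric simplicial configuration of
dimension `d + 1` is a centrally symmetric simplicial configuration of dimension `d`.

PROOF. For a finset `T` let `K T = {h ∈ A | h = 0 on T}`. Let `Ev : (α → ℝ)`-functionals: we look for a linear
functional `ℓ` on `A` with `ℓ 1 = 0` and `ℓ ≠ 0` on `K T` for every proper face `T` with `K T ≠ 0`
(finitely many conditions). Let `A₁ = {f ∈ A | f (ν x) = - f x}` (odd functions). Every `f ∈ A` is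
`f = (f - c/2) + c/2` with `c` from `Anti.const`, and `f - c/2 ∈ A₁`. So `A = A₁ ⊕ ℝ 1` (`α` is nonempty because
`finrank A = d + 2 > 0`; a constant odd function is `0`), `odd f := f - c/2 = (f - f ∘ ν)/2` is a linear
projection. For a face `T` with `K T ≠ 0` there is `f ∈ K T` with `odd f ≠ 0`: for `T ≠ ∅` a constant `f`
vanishing on `T` is `0`; for `T = ∅`, `K T = A` has dimension `d + 2 ≥ 2`, so it is not `ℝ 1`.
Choose such an `f_T` for every proper face `T` of the configuration with `K T ≠ 0`. There is a linear functional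
`ℓ'` on `α → ℝ` with `ℓ' (odd f_T) ≠ 0` for all these finitely many nonzero vectors (a real vector space is
not a finite union of proper subspaces; for the dual space of `α → ℝ`; Mathlib:
`Module.Dual.exists_forall_mem_ne_zero_of_forall_exists` or `Module.exists_dual_forall_apply_ne_zero`, or
`Subspace.biUnion_ne_univ_of_top_notMem`). Put `ℓ f = ℓ' ((f - f ∘ ν)/2)` (a linear functional on all of
`α → ℝ`): `ℓ 1 = 0`, `ℓ (f ∘ ν) = - ℓ f`, `ℓ f_T ≠ 0`. Let `A' = A ⊓ ker ℓ`.
* `dim A' = d + 1`: `ℓ` is not zero on `A` (`T = ∅` is a face: the function `-1`; `f_∅`).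
* `Anti A' ν`: clear.
* `Cfg.simp` for `A'`: let `T` be a face of `A'`; it is a face of `A` (`A' ≤ A`). If `K T = 0` then the function
  of the face `T` is `0`, impossible; so `K T ≠ 0` and `f_T ∈ K T` with `ℓ f_T ≠ 0`. Given `g`, take `h ∈ A`
  with `h = g` on `T`; `h' = h - (ℓ h / ℓ f_T) f_T ∈ A'`, `h' = g` on `T`.
* facets: if `Supp A T f` and `T.card = d + 1`, then `K T` has dimension `d + 2 - (d + 1) = 1` (the restriction
  `A → (T → ℝ)` is surjective by `Cfg.simp`), so `f_T` is a multiple of `f`, hence `ℓ f ≠ 0`.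
-/

set_option autoImplicit false

namespace Pool.Agent.Work.MP_5f857a_co.M

open Pool.Agent.Work.MP_5f857a_co.L

variable {α : Type*}

/-- the odd part of a function, times two -/
private def hyO (ν : α → α) : (α → ℝ) →ₗ[ℝ] (α → ℝ) where
  toFun f x := f x - f (ν x)
  map_add' f g := by
    funext x
    simp only [Pi.add_apply]
    ring
  map_smul' c f := by
    funext x
    simp only [Pi.smul_apply, smul_eq_mul, RingHom.id_apply]
    ring

private theorem hyO_apply (ν : α → α) (f : α → ℝ) (x : α) : hyO ν f x = f x - f (ν x) := rfl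

theorem hyper [Fintype α] [DecidableEq α] {A : Submodule ℝ (α → ℝ)} {d : ℕ} {ν : α → α}
    (hC : Cfg A (d + 1)) (hν : Anti A ν) :
    ∃ ℓ : (α → ℝ) →ₗ[ℝ] ℝ, Cfg (A ⊓ LinearMap.ker ℓ) d ∧ Anti (A ⊓ LinearMap.ker ℓ) ν ∧
      (∀ f ∈ A, ℓ (fun x => f (ν x)) = - ℓ f) ∧
      ∀ (T : Finset α) (f : α → ℝ), Supp A T f → T.card = d + 1 → ℓ f ≠ 0 := by
  classical
  -- `α` is nonempty
  have hne : Nonempty α := by
    by_contra h
    rw [not_nonempty_iff] at h
    have h1 : Module.finrank ℝ A = 0 := by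
      have h2 : Module.finrank ℝ A ≤ Module.finrank ℝ (α → ℝ) := Submodule.finrank_le A
      rw [Module.finrank_fintype_fun_eq_card, Fintype.card_eq_zero] at h2
      omega
    have := hC.dim
    omega
  obtain ⟨x₀⟩ := hne
  -- even functions in `A` are constant
  have heven : ∀ f ∈ A, hyO ν f = 0 → ∀ x y, f x = f y := by
    intro f hf h0 x y
    obtain ⟨c, hc⟩ := hν.const f hf
    have h1 : ∀ x, f x = c / 2 := by
      intro x
      have h2 := congrFun h0 x
      rw [hyO_apply] at h2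
      have h3 := hc x
      simp only [Pi.zero_apply] at h2
      linarith
    rw [h1, h1]
  -- a good function for every face
  have hface : ∀ T : Finset α, FcA A T → ∃ f ∈ A, (∀ x ∈ T, f x = 0) ∧ hyO ν f ≠ 0 := by
    rintro T ⟨f, hfA, hf1, hf2, x, hx⟩
    rcases T.eq_empty_or_nonempty with hT | ⟨t, ht⟩
    · by_contra hcon
      push Not at hcon
      have h1 : ∀ f ∈ A, hyO ν f = 0 := fun f hf => hcon f hf (by rw [hT]; simp)
      have h2 : A ≤ Submodule.span ℝ {(fun _ => (1 : ℝ) : α → ℝ)} := by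
        intro f hf
        rw [Submodule.mem_span_singleton]
        refine ⟨f x₀, ?_⟩
        funext y
        simp only [Pi.smul_apply, smul_eq_mul, mul_one]
        exact heven f hf (h1 f hf) x₀ y
      have h3 := Submodule.finrank_mono h2
      rw [hC.dim] at h3
      have h4 : Module.finrank ℝ (Submodule.span ℝ {(fun _ => (1 : ℝ) : α → ℝ)}) ≤ 1 := by
        have := finrank_span_le_card (R := ℝ) ({(fun _ => (1 : ℝ) : α → ℝ)} : Set (α → ℝ))
        simpa using this
      omega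
    · refine ⟨f, hfA, fun y hy => (hf2 y).2 hy, fun h0 => ?_⟩
      have h1 := heven f hfA h0 x t
      rw [(hf2 t).2 ht] at h1
      exact hx.ne h1
  -- the functional
  let ι := {T : Finset α // FcA A T}
  choose F hFA hF0 hFO using fun T : ι => hface T.1 T.2
  obtain ⟨ℓ', hℓ'⟩ := Module.exists_dual_forall_apply_ne_zero (K := ℝ) (fun T : ι => hyO ν (F T))
    hFO
  let ℓ : (α → ℝ) →ₗ[ℝ] ℝ := ℓ'.comp (hyO ν)
  have hℓ : ∀ f, ℓ f = ℓ' (hyO ν f) := fun _ => rfl
  have hℓF : ∀ T : ι, ℓ (F T) ≠ 0 := fun T => hℓ' T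
  have hneg : ∀ f : α → ℝ, ℓ (fun x => f (ν x)) = - ℓ f := by
    intro f
    rw [hℓ, hℓ, ← map_neg]
    congr 1
    funext x
    simp only [hyO_apply, Pi.neg_apply, hν.inv]
    ring
  have hone : ℓ (fun _ => (1 : ℝ)) = 0 := by
    rw [hℓ]
    have : hyO ν (fun _ => (1 : ℝ)) = 0 := by
      funext x
      simp [hyO_apply]
    rw [this, map_zero]
  have hempty : FcA A ∅ := by
    refine ⟨-(fun _ => (1 : ℝ)), neg_mem hν.one, fun x => by simp, fun x => by simp, x₀, by simp⟩
  have hmono : ∀ T : Finset α, FcA (A ⊓ LinearMap.ker ℓ) T → FcA A T := by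
    rintro T ⟨f, hf, h1, h2, h3⟩
    exact ⟨f, hf.1, h1, h2, h3⟩
  refine ⟨ℓ, ⟨?_, ?_⟩, ⟨hν.inv, ⟨hν.one, ?_⟩, ?_, ?_⟩, fun f _ => hneg f, ?_⟩
  · -- dimension
    have h1 : ℓ.domRestrict A ≠ 0 := by
      intro h
      apply hℓF ⟨∅, hempty⟩
      exact congrArg (fun g : A →ₗ[ℝ] ℝ => g ⟨F ⟨∅, hempty⟩, hFA ⟨∅, hempty⟩⟩) h
    have h2 := Module.Dual.finrank_ker_add_one_of_ne_zero h1
    rw [hC.dim] at h2
    have h3 : LinearMap.ker (ℓ.domRestrict A) =
        Submodule.comap A.subtype (A ⊓ LinearMap.ker ℓ) := by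
      ext a
      rw [LinearMap.mem_ker, Submodule.mem_comap, Submodule.mem_inf, LinearMap.mem_ker]
      exact ⟨fun h => ⟨a.2, h⟩, fun h => h.2⟩
    have h4 := (Submodule.comapSubtypeEquivOfLe
      (inf_le_left : A ⊓ LinearMap.ker ℓ ≤ A)).finrank_eq
    rw [← h4, ← h3]
    omega
  · -- restriction to faces
    intro T hT g
    obtain ⟨h, hhA, hh⟩ := hC.simp T (hmono T hT) g
    refine ⟨h - (ℓ h / ℓ (F ⟨T, hmono T hT⟩)) • F ⟨T, hmono T hT⟩,
      ⟨sub_mem hhA (A.smul_mem _ (hFA _)), ?_⟩, ?_⟩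
    · show _ ∈ LinearMap.ker ℓ
      rw [LinearMap.mem_ker, map_sub, map_smul, smul_eq_mul, div_mul_cancel₀ _ (hℓF _), sub_self]
    · intro x hx
      simp only [Pi.sub_apply, Pi.smul_apply, smul_eq_mul]
      rw [hF0 ⟨T, hmono T hT⟩ x hx, mul_zero, sub_zero]
      exact hh x hx
  · show _ ∈ LinearMap.ker ℓ
    rw [LinearMap.mem_ker]
    exact hone
  · rintro f ⟨hf1, hf2⟩
    refine ⟨hν.comp f hf1, ?_⟩
    show _ ∈ LinearMap.ker ℓ
    rw [LinearMap.mem_ker, hneg, LinearMap.mem_ker.1 hf2, neg_zero]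
  · rintro f ⟨hf1, _⟩
    exact hν.const f hf1
  · intro T f hf hT h0
    obtain ⟨hfA, hf1, hf2, x, hx⟩ := hf
    have hF : FcA A T := ⟨f, hfA, hf1, hf2, x, hx⟩
    have hfne : f ≠ 0 := by
      intro h
      rw [h] at hx
      exact lt_irrefl _ hx
    obtain ⟨c, hc⟩ := facet_line hC hT hF hfA (hFA ⟨T, hF⟩) (fun t ht => (hf2 t).2 ht)
      (hF0 ⟨T, hF⟩) hfne
    apply hℓF ⟨T, hF⟩
    rw [hc, map_smul, h0, smul_zero]

end Pool.Agent.Work.MP_5f857a_co.M
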