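import Pool.Agent.Work.MP_5f857a_co.M.Defs

/-!
MODULE Ridge (M): the two facets containing a ridge, and when the ridge is a face of the projection.

Setting: `Cfg A (d + 1)`, `ℓ` a linear functional with `ℓ f ≠ 0` for the functions `f` of facets.
* `supp_unique`: if `f`, `g` are both functions of the facet `T` (`T.card = d + 1`), then `g = c f` with `c > 0`:
  `K T = {h ∈ A | h = 0 on T}` has dimension `(d + 2) - (d + 1) = 1` (restriction `A → (T → ℝ)` is surjective by
  `Cfg.simp`), so `g = c • f`; `c > 0` because both are negative at a point outside `T`.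
* `ridge_sign`: `R.card = d`, `x ≠ y`, `x, y ∉ R`, `Supp A (insert x R) f`, `Supp A (insert y R) g`. Then
  `FcA (A ⊓ ker ℓ) R ↔ ℓ f * ℓ g < 0`.
  (⇐) `h = |ℓ g| f + |ℓ f| g` is in `ker ℓ` (opposite signs), `≤ 0`, zero exactly on
  `(insert x R) ∩ (insert y R) = R`, negative at `x`.
  (⇒) let `h ∈ A ⊓ ker ℓ` be a function of the face `R`. `K R` has dimension `(d + 2) - d = 2`, and `f`, `g` are
  linearly independent in it (`f x = 0 > g x`, `f y < 0 = g y`), so `h = a f + b g`. At `x`: `b g x = h x < 0`,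
  so `b > 0`; at `y`: `a > 0`. `0 = ℓ h = a ℓ f + b ℓ g` and `ℓ f, ℓ g ≠ 0`, so the signs are opposite.
* `ridge_two`: `FcA A R`, `R.card = d`: there are `x ≠ y` outside `R` with `insert x R`, `insert y R` faces, and
  no third one (`FcA_low` with `e = 1`: first `X = ∅`, then `X = {x}`; `FcA_up`).
-/

set_option autoImplicit false

namespace Pool.Agent.Work.MP_5f857a_co.M

open Pool.Agent.Work.MP_5f857a_co.L

variable {α : Type*}

/-- the functions in `A` vanishing on a facet form a line -/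
theorem facet_line [Fintype α] [DecidableEq α] {A : Submodule ℝ (α → ℝ)} {d : ℕ}
    (hC : Cfg A (d + 1)) {T : Finset α} (hT : T.card = d + 1) (hF : FcA A T) {f g : α → ℝ}
    (hf : f ∈ A) (hg : g ∈ A) (hf0 : ∀ x ∈ T, f x = 0) (hg0 : ∀ x ∈ T, g x = 0) (hne : f ≠ 0) :
    ∃ c : ℝ, g = c • f := by
  let R : A →ₗ[ℝ] (T → ℝ) :=
    (LinearMap.pi fun t : T => (LinearMap.proj (t : α) : (α → ℝ) →ₗ[ℝ] ℝ)).comp A.subtype
  have hR : ∀ (a : A) (t : T), R a t = (a : α → ℝ) t := fun _ _ => rfl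
  have hsurj : LinearMap.range R = ⊤ := by
    rw [LinearMap.range_eq_top]
    intro u
    obtain ⟨h, hh, hh'⟩ := hC.simp T hF (fun x => if hx : x ∈ T then u ⟨x, hx⟩ else 0)
    refine ⟨⟨h, hh⟩, ?_⟩
    funext t
    rw [hR]
    have := hh' t.1 t.2
    simp only [dif_pos t.2] at this
    exact this
  have h1 := LinearMap.finrank_range_add_finrank_ker R
  rw [hsurj, finrank_top, Module.finrank_fintype_fun_eq_card, Fintype.card_coe, hT, hC.dim] at h1
  have h2 : Module.finrank ℝ (LinearMap.ker R) = 1 := by omega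
  have hker : ∀ {u : α → ℝ} (hu : u ∈ A), (∀ x ∈ T, u x = 0) →
      (⟨u, hu⟩ : A) ∈ LinearMap.ker R := by
    intro u hu h0
    rw [LinearMap.mem_ker]
    funext t
    exact h0 t.1 t.2
  have hne' : (⟨⟨f, hf⟩, hker hf hf0⟩ : LinearMap.ker R) ≠ 0 := by
    intro h
    apply hne
    exact congrArg (fun z : LinearMap.ker R => ((z : A) : α → ℝ)) h
  have h3 : ∀ w : LinearMap.ker R, ∃ c : ℝ, c • (⟨⟨f, hf⟩, hker hf hf0⟩ : LinearMap.ker R) = w :=
    (finrank_eq_one_iff_of_nonzero' (K := ℝ) (V := ↥(LinearMap.ker R))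
      ⟨⟨f, hf⟩, hker hf hf0⟩ hne').1 h2
  obtain ⟨c, hc⟩ := h3 ⟨⟨g, hg⟩, hker hg hg0⟩
  refine ⟨c, ?_⟩
  have := congrArg (fun z : LinearMap.ker R => ((z : A) : α → ℝ)) hc
  exact this.symm

theorem supp_unique [Fintype α] [DecidableEq α] {A : Submodule ℝ (α → ℝ)} {d : ℕ}
    (hC : Cfg A (d + 1)) {T : Finset α} (hT : T.card = d + 1) {f g : α → ℝ} (hf : Supp A T f)
    (hg : Supp A T g) : ∃ c : ℝ, 0 < c ∧ g = c • f := by
  obtain ⟨hfA, hf1, hf2, x, hx⟩ := hf
  obtain ⟨hgA, hg1, hg2, hg3⟩ := hg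
  have hne : f ≠ 0 := by
    intro h
    rw [h] at hx
    exact lt_irrefl _ hx
  obtain ⟨c, hc⟩ := facet_line hC hT ⟨f, hfA, hf1, hf2, x, hx⟩ hfA hgA
    (fun t ht => (hf2 t).2 ht) (fun t ht => (hg2 t).2 ht) hne
  refine ⟨c, ?_, hc⟩
  have hxT : x ∉ T := fun h => hx.ne ((hf2 x).2 h)
  have hgx : g x < 0 := lt_of_le_of_ne (hg1 x) fun h => hxT ((hg2 x).1 h)
  have h1 : g x = c * f x := by rw [hc]; rfl
  rw [h1] at hgx
  by_contra hcon
  have : 0 ≤ c * f x := mul_nonneg_of_nonpos_of_nonpos (not_lt.1 hcon) hx.le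
  linarith

theorem ridge_sign [Fintype α] [DecidableEq α] {A : Submodule ℝ (α → ℝ)} {d : ℕ}
    (hC : Cfg A (d + 1)) (ℓ : (α → ℝ) →ₗ[ℝ] ℝ) {R : Finset α} (hR : R.card = d) {x y : α}
    (hxy : x ≠ y) (hx : x ∉ R) (hy : y ∉ R) {f g : α → ℝ} (hf : Supp A (insert x R) f)
    (hg : Supp A (insert y R) g) (hlf : ℓ f ≠ 0) (hlg : ℓ g ≠ 0) :
    FcA (A ⊓ LinearMap.ker ℓ) R ↔ ℓ f * ℓ g < 0 := by
  obtain ⟨hfA, hf1, hf2, zf, hzf⟩ := id hf
  obtain ⟨hgA, hg1, hg2, zg, hzg⟩ := id hg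
  have hfy : f y < 0 := by
    refine lt_of_le_of_ne (hf1 y) fun h => ?_
    rcases Finset.mem_insert.1 ((hf2 y).1 h) with h' | h'
    · exact hxy h'.symm
    · exact hy h'
  have hgx : g x < 0 := by
    refine lt_of_le_of_ne (hg1 x) fun h => ?_
    rcases Finset.mem_insert.1 ((hg2 x).1 h) with h' | h'
    · exact hxy h'
    · exact hx h'
  have hfx : f x = 0 := (hf2 x).2 (Finset.mem_insert_self _ _)
  have hgy : g y = 0 := (hg2 y).2 (Finset.mem_insert_self _ _)
  constructor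
  · rintro ⟨h, ⟨hhA, hhk⟩, hh1, hh2, hh3⟩
    have hhx : h x < 0 := lt_of_le_of_ne (hh1 x) fun h0 => hx ((hh2 x).1 h0)
    have hhy : h y < 0 := lt_of_le_of_ne (hh1 y) fun h0 => hy ((hh2 y).1 h0)
    have ha : 0 < h y / f y := div_pos_of_neg_of_neg hhy hfy
    have hb : 0 < h x / g x := div_pos_of_neg_of_neg hhx hgx
    -- `h` is a combination of `f` and `g`
    have hcomb : h = (h y / f y) • f + (h x / g x) • g := by
      have hA : h - (h y / f y) • f - (h x / g x) • g ∈ A :=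
        sub_mem (sub_mem hhA (A.smul_mem _ hfA)) (A.smul_mem _ hgA)
      have h0 : ∀ t ∈ insert x R, (h - (h y / f y) • f - (h x / g x) • g) t = 0 := by
        intro t ht
        simp only [Pi.sub_apply, Pi.smul_apply, smul_eq_mul]
        rw [(hf2 t).2 ht]
        rcases Finset.mem_insert.1 ht with h' | h'
        · subst h'
          rw [div_mul_cancel₀ _ hgx.ne]
          ring
        · rw [(hh2 t).2 h', (hg2 t).2 (Finset.mem_insert_of_mem h')]
          ring
      have hne : f ≠ 0 := by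
        intro h'
        rw [h'] at hfy
        exact lt_irrefl _ hfy
      obtain ⟨c, hc⟩ := facet_line hC (by rw [Finset.card_insert_of_notMem hx, hR])
        ⟨f, hfA, hf1, hf2, zf, hzf⟩ hfA hA (fun t ht => (hf2 t).2 ht) h0 hne
      have h4 := congrFun hc y
      simp only [Pi.sub_apply, Pi.smul_apply, smul_eq_mul, hgy] at h4
      rw [div_mul_cancel₀ _ hfy.ne] at h4
      have h5 : c = 0 := by
        have : c * f y = 0 := by linarith
        rcases mul_eq_zero.1 this with h6 | h6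
        · exact h6
        · exact absurd h6 hfy.ne
      rw [h5, zero_smul] at hc
      rw [sub_sub, sub_eq_zero] at hc
      exact hc
    have hl : ℓ h = (h y / f y) * ℓ f + (h x / g x) * ℓ g := by
      conv_lhs => rw [hcomb]
      rw [map_add, map_smul, map_smul, smul_eq_mul, smul_eq_mul]
    rw [LinearMap.mem_ker.1 hhk] at hl
    have h6 : (h y / f y) * (ℓ f * ℓ g) = - ((h x / g x) * (ℓ g) ^ 2) := by
      linear_combination (-(ℓ g)) * hl
    have h7 : 0 < (h x / g x) * (ℓ g) ^ 2 := mul_pos hb (by positivity)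
    by_contra hcon
    have := mul_nonneg ha.le (not_lt.1 hcon)
    linarith
  · intro hneg
    have hlf' : 0 < |ℓ f| := abs_pos.2 hlf
    have hlg' : 0 < |ℓ g| := abs_pos.2 hlg
    refine ⟨|ℓ g| • f + |ℓ f| • g, ⟨A.add_mem (A.smul_mem _ hfA) (A.smul_mem _ hgA), ?_⟩,
      ?_, ?_, x, ?_⟩
    · show |ℓ g| • f + |ℓ f| • g ∈ LinearMap.ker ℓ
      rw [LinearMap.mem_ker, map_add, map_smul, map_smul, smul_eq_mul, smul_eq_mul]
      rcases mul_neg_iff.1 hneg with ⟨h1, h2⟩ | ⟨h1, h2⟩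
      · rw [abs_of_pos h1, abs_of_neg h2]
        ring
      · rw [abs_of_neg h1, abs_of_pos h2]
        ring
    · intro z
      simp only [Pi.add_apply, Pi.smul_apply, smul_eq_mul]
      have h1 := mul_nonpos_of_nonneg_of_nonpos hlg'.le (hf1 z)
      have h2 := mul_nonpos_of_nonneg_of_nonpos hlf'.le (hg1 z)
      linarith
    · intro z
      simp only [Pi.add_apply, Pi.smul_apply, smul_eq_mul]
      have h1 := mul_nonpos_of_nonneg_of_nonpos hlg'.le (hf1 z)
      have h2 := mul_nonpos_of_nonneg_of_nonpos hlf'.le (hg1 z)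
      constructor
      · intro h3
        have h4 : |ℓ g| * f z = 0 := by linarith
        have h5 : |ℓ f| * g z = 0 := by linarith
        have h6 : f z = 0 := (mul_eq_zero.1 h4).resolve_left hlg'.ne'
        have h7 : g z = 0 := (mul_eq_zero.1 h5).resolve_left hlf'.ne'
        rcases Finset.mem_insert.1 ((hf2 z).1 h6) with h' | h'
        · rw [h'] at h7
          exact absurd h7 hgx.ne
        · exact h'
      · intro h3
        rw [(hf2 z).2 (Finset.mem_insert_of_mem h3), (hg2 z).2 (Finset.mem_insert_of_mem h3)]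
        ring
    · simp only [Pi.add_apply, Pi.smul_apply, smul_eq_mul, hfx]
      have h1 := mul_neg_of_pos_of_neg hlf' hgx
      linarith

theorem ridge_two [Fintype α] [DecidableEq α] {A : Submodule ℝ (α → ℝ)} {d : ℕ}
    (hC : Cfg A (d + 1)) {R : Finset α} (hR : R.card = d) (hF : FcA A R) :
    ∃ x y, x ≠ y ∧ x ∉ R ∧ y ∉ R ∧ FcA A (insert x R) ∧ FcA A (insert y R) ∧
      ∀ z, z ∉ R → FcA A (insert z R) → z = x ∨ z = y := by
  obtain ⟨x, hx, -⟩ := FcA_low hC R hF 1 le_rfl (by omega) ∅ (by simp)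
  obtain ⟨y, hy, hyx⟩ := FcA_low hC R hF 1 le_rfl (by omega) {x} (by simp)
  rw [Finset.mem_singleton] at hyx
  refine ⟨x, y, fun h => hyx h.symm, hx.1, hy.1, hx.2, hy.2, fun z hz1 hz2 => ?_⟩
  rcases FcA_up hC R hF (by omega) x hx y hy z ⟨hz1, hz2⟩ with h | h | h
  · exact absurd h.symm hyx
  · exact Or.inl h.symm
  · exact Or.inr h.symm

end Pool.Agent.Work.MP_5f857a_co.M
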