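import Pool.Agent.Work.MP_5f857a_co.M.SimpLem
import Pool.Agent.Work.MP_5f857a_co.M.Hyper
import Pool.Agent.Work.MP_5f857a_co.M.Ridge

/-!
MODULE Fan (M): Ky Fan's lemma for the boundary complex of a centrally symmetric simplicial polytope.

PROOF by induction on `d` (all `A`; `ν`, `lam` fixed).
`d = 0`: `dim A = 1`, `A = ℝ 1`. A finset `T` with `T.card = 0` is `∅`; it is a face (function `-1`; `α` is nonempty
since `finrank A = 1`), and `Alt lam 0 ∅` holds. So the number is 1.
`d → d + 1`: take `ℓ` from `hyper`, `A' = A ⊓ ker ℓ`. Let `U = {T | T.card = d + 1, ∃ f, Supp A T f ∧ 0 < ℓ f}`,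
`U' = {T | T.card = d + 1, ∃ f, Supp A T f ∧ ℓ f < 0}`. Every facet is in exactly one of `U`, `U'`
(`supp_unique`). `T ↦ T.image ν` is a bijection `U ↔ U'` (`f ∘ ν` is a function of `T.image ν`:
`f (ν x) = 0 ↔ ν x ∈ T ↔ x ∈ T.image ν`), and `Alt lam 0 (T.image ν) ↔ Alt lam 1 T` (labels change sign,
absolute values do not). By `simpLem` (the labels of a facet are not complementary: two elements `s, t` of a
facet form a face `{s, t}` by `FcA_down`, use `hedge`; for `s = t`: `lam s ≠ - lam s` also by `hedge`),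
for `T ∈ U`: the number `n T` of `t ∈ T` with `Alt 0 (T.erase t)` is odd iff `Alt 0 T` or `Alt 1 T`
(not both, `alt_excl`). So `∑_{T ∈ U} n T ≡ #{T ∈ U | Alt 0 T} + #{T ∈ U | Alt 1 T}`
`= #{T ∈ U | Alt 0 T} + #{T ∈ U' | Alt 0 T} = #{facets T | Alt 0 T}`.
On the other hand `∑_{T ∈ U} n T = ∑_{R : R.card = d, Alt 0 R} #{x ∉ R | insert x R ∈ U}` (pairs `(T, t)` ↔ pairs
`(R, x)`). For such `R`: if `R` is not a face of `A` the number is 0 and `R` is not a face of `A'`. If it is, let
`x`, `y` be as in `ridge_two` with functions `f`, `g`; `insert x R ∈ U ↔ 0 < ℓ f` and `insert y R ∈ U ↔ 0 < ℓ g`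
(`supp_unique`), so the number is odd iff `ℓ f`, `ℓ g` have opposite signs iff `R` is a face of `A'`
(`ridge_sign`). So the sum is congruent to `#{R | R.card = d, FcA A' R, Alt 0 R}`, odd by induction.
-/

set_option autoImplicit false

namespace Pool.Agent.Work.MP_5f857a_co.M

open Pool.Agent.Work.MP_5f857a_co.L

variable {α : Type*}

/-- labels of the antipodal set -/
private theorem fan_nu [DecidableEq α] {ν : α → α} (hν : ∀ x, ν (ν x) = x) {lam : α → ℤ}
    (hlam : ∀ x, lam (ν x) = - lam x) {T : Finset α} (h0 : ∀ t ∈ T, lam t ≠ 0) :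
    Alt lam 1 T ↔ Alt lam 0 (T.image ν) := by
  have hinj : Function.Injective ν := fun a b h => by rw [← hν a, h, hν]
  have habs : ∀ x, |lam (ν x)| = |lam x| := fun x => by rw [hlam, abs_neg]
  have hrk : ∀ t, rk lam (T.image ν) (ν t) = rk lam T t := by
    intro t
    unfold rk
    rw [Finset.filter_image, Finset.card_image_of_injective _ hinj]
    congr 1
    apply Finset.filter_congr
    intro s _
    rw [habs, habs]
  have hsign : ∀ t ∈ T, (0 < lam (ν t) ↔ ¬ 0 < lam t) := by
    intro t ht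
    have := h0 t ht
    rw [hlam]
    omega
  constructor
  · rintro ⟨h1, h2⟩
    refine ⟨?_, ?_⟩
    · intro s hs t ht hst
      obtain ⟨s', hs', rfl⟩ := Finset.mem_image.1 hs
      obtain ⟨t', ht', rfl⟩ := Finset.mem_image.1 ht
      rw [habs, habs] at hst
      rw [h1 s' hs' t' ht' hst]
    · intro t ht
      obtain ⟨t', ht', rfl⟩ := Finset.mem_image.1 ht
      rw [hrk, hsign t' ht', h2 t' ht', add_zero, Nat.even_add_one, not_not]
  · rintro ⟨h1, h2⟩
    refine ⟨?_, ?_⟩
    · intro s hs t ht hst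
      apply hinj
      apply h1 _ (Finset.mem_image_of_mem ν hs) _ (Finset.mem_image_of_mem ν ht)
      rw [habs, habs, hst]
    · intro t ht
      have h3 := h2 _ (Finset.mem_image_of_mem ν ht)
      rw [hrk, hsign t ht, add_zero] at h3
      rw [Nat.even_add_one, ← h3, not_not]

/-- the antipodal face -/
private theorem fan_supp_nu [DecidableEq α] {A : Submodule ℝ (α → ℝ)} {ν : α → α} (hν : Anti A ν)
    {T : Finset α} {f : α → ℝ} (hf : Supp A T f) : Supp A (T.image ν) (fun x => f (ν x)) := by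
  obtain ⟨h1, h2, h3, x, hx⟩ := hf
  refine ⟨hν.comp f h1, fun y => h2 _, fun y => ?_, ν x, ?_⟩
  · rw [h3, Finset.mem_image]
    constructor
    · intro h
      exact ⟨ν y, h, hν.inv y⟩
    · rintro ⟨z, hz, rfl⟩
      rw [hν.inv]
      exact hz
  · show f (ν (ν x)) < 0
    rw [hν.inv]
    exact hx

open Classical in
/-- the ridge `R` is a face of the projection iff it lies in an odd number of positive facets -/
private theorem fan_ridge [Fintype α] {A : Submodule ℝ (α → ℝ)} {d : ℕ} (hC : Cfg A (d + 1))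
    (ℓ : (α → ℝ) →ₗ[ℝ] ℝ)
    (hℓ : ∀ (T : Finset α) (f : α → ℝ), Supp A T f → T.card = d + 1 → ℓ f ≠ 0)
    {R : Finset α} (hR : R.card = d) :
    Odd (Finset.univ.filter fun x : α => x ∉ R ∧ ∃ f, Supp A (insert x R) f ∧ 0 < ℓ f).card ↔
      FcA (A ⊓ LinearMap.ker ℓ) R := by
  by_cases hF : FcA A R
  · obtain ⟨x, y, hxy, hx, hy, hFx, hFy, hall⟩ := ridge_two hC hR hF
    obtain ⟨f, hf⟩ := fcA_iff.1 hFx
    obtain ⟨g, hg⟩ := fcA_iff.1 hFy
    have hcx : (insert x R).card = d + 1 := by rw [Finset.card_insert_of_notMem hx, hR]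
    have hcy : (insert y R).card = d + 1 := by rw [Finset.card_insert_of_notMem hy, hR]
    have hlf := hℓ _ _ hf hcx
    have hlg := hℓ _ _ hg hcy
    rw [ridge_sign hC ℓ hR hxy hx hy hf hg hlf hlg]
    have hpx : (∃ f, Supp A (insert x R) f ∧ 0 < ℓ f) ↔ 0 < ℓ f := by
      constructor
      · rintro ⟨f', hf', hpos⟩
        obtain ⟨c, hc, rfl⟩ := supp_unique hC hcx hf hf'
        rw [map_smul, smul_eq_mul] at hpos
        exact (pos_iff_pos_of_mul_pos hpos).1 hc
      · intro h
        exact ⟨f, hf, h⟩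
    have hpy : (∃ f, Supp A (insert y R) f ∧ 0 < ℓ f) ↔ 0 < ℓ g := by
      constructor
      · rintro ⟨f', hf', hpos⟩
        obtain ⟨c, hc, rfl⟩ := supp_unique hC hcy hg hf'
        rw [map_smul, smul_eq_mul] at hpos
        exact (pos_iff_pos_of_mul_pos hpos).1 hc
      · intro h
        exact ⟨g, hg, h⟩
    have hset : (Finset.univ.filter fun z : α => z ∉ R ∧ ∃ f, Supp A (insert z R) f ∧ 0 < ℓ f) =
        ({x, y} : Finset α).filter fun z => ∃ f, Supp A (insert z R) f ∧ 0 < ℓ f := by
      ext z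
      rw [Finset.mem_filter, Finset.mem_filter, Finset.mem_insert, Finset.mem_singleton]
      constructor
      · rintro ⟨-, hz, f', hf', hpos⟩
        exact ⟨hall z hz (fcA_iff.2 ⟨f', hf'⟩), f', hf', hpos⟩
      · rintro ⟨hz, h⟩
        refine ⟨Finset.mem_univ _, ?_, h⟩
        rcases hz with rfl | rfl
        · exact hx
        · exact hy
    rw [hset, Finset.filter_insert, Finset.filter_singleton]
    simp only [hpx, hpy]
    rcases lt_or_gt_of_ne hlf with h1 | h1 <;> rcases lt_or_gt_of_ne hlg with h2 | h2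
    · rw [if_neg (not_lt.2 h1.le), if_neg (not_lt.2 h2.le)]
      have := mul_pos_of_neg_of_neg h1 h2
      simp [not_lt.2 this.le]
    · rw [if_neg (not_lt.2 h1.le), if_pos h2]
      have := mul_neg_of_neg_of_pos h1 h2
      simp [this]
    · rw [if_pos h1, if_neg (not_lt.2 h2.le)]
      have := mul_neg_of_pos_of_neg h1 h2
      simp [this]
    · rw [if_pos h1, if_pos h2, Finset.card_pair hxy]
      have := mul_pos h1 h2
      constructor
      · intro h
        exact absurd h (by decide)
      · intro h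
        exact absurd h (not_lt.2 this.le)
  · have h1 : ¬ FcA (A ⊓ LinearMap.ker ℓ) R := by
      rintro ⟨f, hf, h1, h2, h3⟩
      exact hF ⟨f, hf.1, h1, h2, h3⟩
    rw [iff_false_right h1]
    have h2 : (Finset.univ.filter fun z : α => z ∉ R ∧ ∃ f, Supp A (insert z R) f ∧ 0 < ℓ f) =
        ∅ := by
      rw [Finset.filter_eq_empty_iff]
      rintro z - ⟨_, f, hf, _⟩
      exact hF (FcA_down hC R (insert z R) (Finset.subset_insert _ _) (fcA_iff.2 ⟨f, hf⟩))
    rw [h2]
    simp

private theorem fan_cast (n : ℕ) (p : Prop) [Decidable p] (hp : Odd n ↔ p) :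
    (n : ZMod 2) = if p then 1 else 0 := by
  split_ifs with h
  · exact (ZMod.natCast_eq_one_iff_odd).2 (hp.2 h)
  · exact (ZMod.natCast_eq_zero_iff_even).2 (Nat.not_odd_iff_even.1 fun h' => h (hp.1 h'))

open Classical in
theorem fan [Fintype α] {ν : α → α} {lam : α → ℤ} (hlam : ∀ x, lam (ν x) = - lam x) (d : ℕ) :
    ∀ A : Submodule ℝ (α → ℝ), Cfg A d → Anti A ν →
      (∀ x y, FcA A {x, y} → lam x ≠ - lam y) →
      Odd (Finset.univ.filter fun T : Finset α => T.card = d ∧ FcA A T ∧ Alt lam 0 T).card := by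
  induction d with
  | zero =>
    intro A hC hν _
    have hne : Nonempty α := by
      by_contra h
      rw [not_nonempty_iff] at h
      have h1 : Module.finrank ℝ A = 0 := by
        have h2 : Module.finrank ℝ A ≤ Module.finrank ℝ (α → ℝ) := Submodule.finrank_le A
        rw [Module.finrank_fintype_fun_eq_card, Fintype.card_eq_zero] at h2
        omega
      have := hC.dim
      omega
    obtain ⟨x₀⟩ := hne
    have h1 : (Finset.univ.filter fun T : Finset α => T.card = 0 ∧ FcA A T ∧ Alt lam 0 T) =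
        {∅} := by
      ext T
      rw [Finset.mem_filter, Finset.mem_singleton, Finset.card_eq_zero]
      constructor
      · rintro ⟨-, h, -⟩
        exact h
      · rintro rfl
        refine ⟨Finset.mem_univ _, rfl, ?_, by simp, by simp⟩
        exact ⟨-(fun _ => (1 : ℝ)), neg_mem hν.one, fun x => by simp, fun x => by simp, x₀,
          by simp⟩
    rw [h1, Finset.card_singleton]
    exact odd_one
  | succ d ih =>
    intro A hC hν hedge
    obtain ⟨ℓ, hC', hν', hneg, hℓ⟩ := hyper hC hν
    have hIH := ih (A ⊓ LinearMap.ker ℓ) hC' hν' (by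
      rintro x y ⟨f, hf, h1, h2, h3⟩
      exact hedge x y ⟨f, hf.1, h1, h2, h3⟩)
    -- facets are not complementary
    have hcomp : ∀ T, FcA A T → ∀ s ∈ T, ∀ t ∈ T, lam s ≠ - lam t := by
      intro T hT s hs t ht
      refine hedge s t (FcA_down hC {s, t} T ?_ hT)
      intro z hz
      rcases Finset.mem_insert.1 hz with h | h
      · rw [h]; exact hs
      · rw [Finset.mem_singleton.1 h]; exact ht
    have hnz : ∀ T, FcA A T → ∀ t ∈ T, lam t ≠ 0 := by
      intro T hT t ht h0
      apply hcomp T hT t ht t ht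
      rw [h0]; rfl
    set U : Finset (Finset α) := Finset.univ.filter fun T : Finset α =>
      T.card = d + 1 ∧ ∃ f, Supp A T f ∧ 0 < ℓ f with hU
    set U' : Finset (Finset α) := Finset.univ.filter fun T : Finset α =>
      T.card = d + 1 ∧ ∃ f, Supp A T f ∧ ℓ f < 0 with hU'
    -- (A)
    have hA : ∀ T ∈ U, ((T.filter fun t => Alt lam 0 (T.erase t)).card : ZMod 2) =
        (if Alt lam 0 T then 1 else 0) + (if Alt lam 1 T then 1 else 0) := by
      intro T hT
      rw [hU, Finset.mem_filter] at hT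
      obtain ⟨-, hTc, f, hf, -⟩ := hT
      have hTF : FcA A T := fcA_iff.2 ⟨f, hf⟩
      have hTne : T.Nonempty := by
        rw [← Finset.card_pos]
        omega
      rw [fan_cast _ _ (simpLem hTne (hcomp T hTF))]
      by_cases h0 : Alt lam 0 T
      · have h1 := alt_excl hTne h0
        simp [h0, h1]
      · by_cases h1 : Alt lam 1 T
        · simp [h0, h1]
        · simp [h0, h1]
    -- (B)
    have hB : (U.filter fun T => Alt lam 1 T).card = (U'.filter fun T => Alt lam 0 T).card := by
      have hinj : Function.Injective ν := fun a b h => by rw [← hν.inv a, h, hν.inv]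
      have hii : ∀ T : Finset α, (T.image ν).image ν = T := by
        intro T
        rw [Finset.image_image]
        have : ν ∘ ν = id := funext hν.inv
        rw [this, Finset.image_id]
      refine Finset.card_bij' (fun T _ => T.image ν) (fun T _ => T.image ν) ?_ ?_ ?_ ?_
      · intro T hT
        rw [Finset.mem_filter, hU, Finset.mem_filter] at hT
        obtain ⟨⟨-, hTc, f, hf, hpos⟩, hAlt⟩ := hT
        rw [Finset.mem_filter, hU', Finset.mem_filter]
        refine ⟨⟨Finset.mem_univ _, ?_, fun x => f (ν x), fan_supp_nu hν hf, ?_⟩, ?_⟩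
        · rw [Finset.card_image_of_injective _ hinj, hTc]
        · rw [hneg f hf.1]
          linarith
        · exact (fan_nu hν.inv hlam (hnz T (fcA_iff.2 ⟨f, hf⟩))).1 hAlt
      · intro T hT
        rw [Finset.mem_filter, hU', Finset.mem_filter] at hT
        obtain ⟨⟨-, hTc, f, hf, hpos⟩, hAlt⟩ := hT
        rw [Finset.mem_filter, hU, Finset.mem_filter]
        have hs := fan_supp_nu hν hf
        refine ⟨⟨Finset.mem_univ _, ?_, fun x => f (ν x), hs, ?_⟩, ?_⟩
        · rw [Finset.card_image_of_injective _ hinj, hTc]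
        · rw [hneg f hf.1]
          linarith
        · rw [fan_nu hν.inv hlam (hnz _ (fcA_iff.2 ⟨_, hs⟩)), hii]
          exact hAlt
      · intro T _
        exact hii T
      · intro T _
        exact hii T
    -- (C)
    have hdisj : Disjoint (U.filter fun T => Alt lam 0 T) (U'.filter fun T => Alt lam 0 T) := by
      rw [Finset.disjoint_left]
      intro T hT hT'
      rw [Finset.mem_filter, hU, Finset.mem_filter] at hT
      rw [Finset.mem_filter, hU', Finset.mem_filter] at hT'
      obtain ⟨⟨-, hTc, f, hf, hpos⟩, -⟩ := hT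
      obtain ⟨⟨-, -, g, hg, hng⟩, -⟩ := hT'
      obtain ⟨c, hc, rfl⟩ := supp_unique hC hTc hf hg
      rw [map_smul, smul_eq_mul] at hng
      have := mul_pos hc hpos
      linarith
    have hCc : (Finset.univ.filter fun T : Finset α => T.card = d + 1 ∧ FcA A T ∧ Alt lam 0 T) =
        (U.filter fun T => Alt lam 0 T) ∪ (U'.filter fun T => Alt lam 0 T) := by
      ext T
      have hmU : T ∈ U ↔ T.card = d + 1 ∧ ∃ f, Supp A T f ∧ 0 < ℓ f := by
        rw [hU, Finset.mem_filter]
        exact ⟨fun h => h.2, fun h => ⟨Finset.mem_univ _, h⟩⟩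
      have hmU' : T ∈ U' ↔ T.card = d + 1 ∧ ∃ f, Supp A T f ∧ ℓ f < 0 := by
        rw [hU', Finset.mem_filter]
        exact ⟨fun h => h.2, fun h => ⟨Finset.mem_univ _, h⟩⟩
      have e1 : T ∈ U.filter (fun T => Alt lam 0 T) ↔ T ∈ U ∧ Alt lam 0 T := Finset.mem_filter
      have e2 : T ∈ U'.filter (fun T => Alt lam 0 T) ↔ T ∈ U' ∧ Alt lam 0 T := Finset.mem_filter
      rw [Finset.mem_union, e1, e2, hmU, hmU', Finset.mem_filter]
      constructor
      · rintro ⟨-, hTc, hTF, hAlt⟩
        obtain ⟨f, hf⟩ := fcA_iff.1 hTF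
        rcases lt_or_gt_of_ne (hℓ T f hf hTc) with h | h
        · exact Or.inr ⟨⟨hTc, f, hf, h⟩, hAlt⟩
        · exact Or.inl ⟨⟨hTc, f, hf, h⟩, hAlt⟩
      · rintro (⟨⟨hTc, f, hf, -⟩, hAlt⟩ | ⟨⟨hTc, f, hf, -⟩, hAlt⟩)
        · exact ⟨Finset.mem_univ _, hTc, fcA_iff.2 ⟨f, hf⟩, hAlt⟩
        · exact ⟨Finset.mem_univ _, hTc, fcA_iff.2 ⟨f, hf⟩, hAlt⟩
    -- (D)
    have hD : ∑ T ∈ U, (T.filter fun t => Alt lam 0 (T.erase t)).card =
        ∑ R ∈ Finset.univ.filter (fun R : Finset α => R.card = d ∧ Alt lam 0 R),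
          (Finset.univ.filter fun x : α => x ∉ R ∧ ∃ f, Supp A (insert x R) f ∧ 0 < ℓ f).card := by
      rw [← Finset.card_sigma, ← Finset.card_sigma]
      refine Finset.card_bij' (fun p _ => ⟨p.1.erase p.2, p.2⟩) (fun p _ => ⟨insert p.2 p.1, p.2⟩)
        ?_ ?_ ?_ ?_
      · rintro ⟨T, t⟩ hp
        rw [Finset.mem_sigma, hU, Finset.mem_filter, Finset.mem_filter] at hp
        obtain ⟨⟨-, hTc, f, hf, hpos⟩, htT, hAlt⟩ := hp
        rw [Finset.mem_sigma, Finset.mem_filter, Finset.mem_filter]
        refine ⟨⟨Finset.mem_univ _, ?_, hAlt⟩, Finset.mem_univ _, Finset.notMem_erase t T, f, ?_,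
          hpos⟩
        · rw [Finset.card_erase_of_mem htT]
          have h1 : T.card = d + 1 := hTc
          show T.card - 1 = d
          omega
        · show Supp A (insert t (T.erase t)) f
          rw [Finset.insert_erase htT]
          exact hf
      · rintro ⟨R, x⟩ hp
        rw [Finset.mem_sigma, Finset.mem_filter, Finset.mem_filter] at hp
        obtain ⟨⟨-, hRc, hAlt⟩, -, hx, f, hf, hpos⟩ := hp
        rw [Finset.mem_sigma, hU, Finset.mem_filter, Finset.mem_filter]
        refine ⟨⟨Finset.mem_univ _, ?_, f, hf, hpos⟩, Finset.mem_insert_self _ _, ?_⟩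
        · show (insert x R).card = d + 1
          rw [Finset.card_insert_of_notMem hx]
          exact congrArg (· + 1) hRc
        · show Alt lam 0 ((insert x R).erase x)
          rw [Finset.erase_insert hx]
          exact hAlt
      · rintro ⟨T, t⟩ hp
        have h1 : t ∈ T := (Finset.mem_filter.1 (Finset.mem_sigma.1 hp).2).1
        simp only [Finset.insert_erase h1]
      · rintro ⟨R, x⟩ hp
        have h1 : x ∉ R := (Finset.mem_filter.1 (Finset.mem_sigma.1 hp).2).2.1
        simp only [Finset.erase_insert h1]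
    -- (E)
    have hE : ∀ R ∈ Finset.univ.filter (fun R : Finset α => R.card = d ∧ Alt lam 0 R),
        ((Finset.univ.filter fun x : α => x ∉ R ∧ ∃ f, Supp A (insert x R) f ∧ 0 < ℓ f).card :
          ZMod 2) = if FcA (A ⊓ LinearMap.ker ℓ) R then 1 else 0 := by
      intro R hR
      rw [Finset.mem_filter] at hR
      exact fan_cast _ _ (fan_ridge hC ℓ hℓ hR.2.1)
    -- conclusion
    rw [← ZMod.natCast_eq_one_iff_odd]
    rw [hCc, Finset.card_union_of_disjoint hdisj, ← hB, Nat.cast_add]
    have h1 : ((U.filter fun T => Alt lam 0 T).card : ZMod 2) + ((U.filter fun T => Alt lam 1 T).card : ZMod 2) =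
        ((∑ T ∈ U, (T.filter fun t => Alt lam 0 (T.erase t)).card : ℕ) : ZMod 2) := by
      rw [Nat.cast_sum, Finset.sum_congr rfl hA, Finset.sum_add_distrib, Finset.sum_boole,
        Finset.sum_boole]
    rw [h1, hD, Nat.cast_sum, Finset.sum_congr rfl hE, Finset.sum_boole, Finset.filter_filter]
    rw [ZMod.natCast_eq_one_iff_odd]
    have h2 : (Finset.univ.filter fun R : Finset α => (R.card = d ∧ Alt lam 0 R) ∧
        FcA (A ⊓ LinearMap.ker ℓ) R) = Finset.univ.filter fun T : Finset α =>
          T.card = d ∧ FcA (A ⊓ LinearMap.ker ℓ) T ∧ Alt lam 0 T := by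
      apply Finset.filter_congr
      intro T _
      tauto
    rw [h2]
    exact hIH

end Pool.Agent.Work.MP_5f857a_co.M
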