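import Pool.Agent.Work.MP_5f857a_co.L.ConB

/-!
MODULE Bags (M, pure graph theory): maximal equivariant contraction.

`G` a graph on a finite type with a fixed point free involution `ν` (automorphism), `x` and `ν x` never adjacent.
CLAIM: there is a labelling `lam : α → ℤ` with `lam (ν x) = - lam x`, `lam x ≠ 0`, such that
(1) the sets of constant label are connected: `lam x = lam y → Con G {z | lam z = lam x} x y`,
(2) adjacent vertices do not have complementary labels,
(3) if `x`, `y` are adjacent and `lam x ≠ lam y`, then there are adjacent `x'`, `y'` with `lam x' = lam x` and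
`lam y' = - lam y`.
PROOF. Call a relation `r` (a `Setoid α`) good if `r x y → Con G {z | r x z} x y`; `r x y → r (ν x) (ν y)`; and
`r a (ν b) → a ≠ b ∧ ¬ G.Adj a b`. Equality is good. Choose a good `r` with the largest number of related pairs
(finitely many relations; e.g. minimise `Fintype.card (Quotient r)` or maximise the card of
`{p : α × α | r p.1 p.2}`).
(3) for `r`: let `G.Adj a b`, `¬ r a b`. The classes of `a`, `b`, `ν a`, `ν b` are distinct: `r a (ν a)` is
impossible (third property with `b = a`), similarly `r b (ν b)`; `r a (ν b)` contradicts `G.Adj a b`,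
`r b (ν a)` too; `r (ν a) (ν b)` gives `r a b`. Let `r'` be obtained by joining the classes of `a` and `b`
and the classes of `ν a` and `ν b` (`r' x y ↔ r x y ∨ (x, y ∈ [a] ∪ [b]) ∨ (x, y ∈ [ν a] ∪ [ν b])`); it has
more related pairs, so it is not good; the first two properties hold, so there are `x`, `y` with `r' x (ν y)`
and (`x = y` or `G.Adj x y`). Not `r x (ν y)`; so `x` and `ν y` lie in `[a] ∪ [b]` (or both in
`[ν a] ∪ [ν b]`: replace `x`, `y` by `ν x`, `ν y`), `y ∈ [ν a] ∪ [ν b]`; `x = y` is impossible as the classes are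
disjoint, so `G.Adj x y`; `x ∈ [a], y ∈ [ν a]` is excluded (then `r x (ν y)`), `x ∈ [b]`, `y ∈ [ν b]` too; so
`x ∈ [a]`, `y ∈ [ν b]`, or `x ∈ [b]`, `y ∈ [ν a]` and then `ν y ∈ [a]`, `ν x ∈ [ν b]` are adjacent.
LABELS: let `e : Quotient r ≃ Fin N` (or any injective map to `ℕ`), `q x` the class of `x`;
`lam x = e (q x) + 1` if `e (q x) < e (q (ν x))`, and `- (e (q (ν x)) + 1)` otherwise. Then `lam x = lam y` iff
`r x y`, `lam (ν x) = - lam x` (the classes of `x` and `ν x` are different).
(2) `lam x = - lam y = lam (ν y)` gives `r x (ν y)`, so `x`, `y` are not adjacent.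
-/

set_option autoImplicit false

namespace Pool.Agent.Work.MP_5f857a_co.M

open Pool.Agent.Work.MP_5f857a_co.L

variable {α : Type*}

/-- good equivalence relations -/
private structure BGood (G : SimpleGraph α) (ν : α → α) (r : Setoid α) : Prop where
  con : ∀ x y, r x y → Con G {z | r x z} x y
  nu : ∀ x y, r x y → r (ν x) (ν y)
  anti : ∀ a b, r a (ν b) → a ≠ b ∧ ¬ G.Adj a b

/-- the step: a maximal good relation -/
private theorem bags_step [Fintype α] (G : SimpleGraph α) (ν : α → α) (hν : ∀ x, ν (ν x) = x)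
    (haut : ∀ a b, G.Adj a b → G.Adj (ν a) (ν b)) (r : Setoid α) (hr : BGood G ν r)
    (hmax : ∀ r' : Setoid α, BGood G ν r' →
      Nat.card {p : α × α | r' p.1 p.2} ≤ Nat.card {p : α × α | r p.1 p.2})
    {a b : α} (hab : G.Adj a b) (hrab : ¬ r a b) :
    ∃ x' y', G.Adj x' y' ∧ r x' a ∧ r y' (ν b) := by
  set P : α → Prop := fun x => r x a ∨ r x b with hP
  set Q : α → Prop := fun x => r x (ν a) ∨ r x (ν b) with hQ
  have hPr : ∀ x y, r x y → P x → P y := by
    rintro x y hxy (h | h)
    · exact Or.inl (r.trans (r.symm hxy) h)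
    · exact Or.inr (r.trans (r.symm hxy) h)
  have hQr : ∀ x y, r x y → Q x → Q y := by
    rintro x y hxy (h | h)
    · exact Or.inl (r.trans (r.symm hxy) h)
    · exact Or.inr (r.trans (r.symm hxy) h)
  have hPQ : ∀ x, P x → ¬ Q x := by
    rintro x (h | h) (h' | h')
    · exact (hr.anti a a (r.trans (r.symm h) h')).1 rfl
    · exact (hr.anti a b (r.trans (r.symm h) h')).2 hab
    · exact (hr.anti b a (r.trans (r.symm h) h')).2 hab.symm
    · exact (hr.anti b b (r.trans (r.symm h) h')).1 rfl
  have hPnu : ∀ x, P x → Q (ν x) := by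
    rintro x (h | h)
    · exact Or.inl (hr.nu _ _ h)
    · exact Or.inr (hr.nu _ _ h)
  have hQnu : ∀ x, Q x → P (ν x) := by
    rintro x (h | h)
    · left
      have := hr.nu _ _ h
      rwa [hν] at this
    · right
      have := hr.nu _ _ h
      rwa [hν] at this
  -- the joined relation
  let r' : Setoid α :=
    { r := fun x y => r x y ∨ (P x ∧ P y) ∨ (Q x ∧ Q y)
      iseqv :=
        { refl := fun x => Or.inl (r.refl x)
          symm := by
            rintro x y (h | h | h)
            · exact Or.inl (r.symm h)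
            · exact Or.inr (Or.inl ⟨h.2, h.1⟩)
            · exact Or.inr (Or.inr ⟨h.2, h.1⟩)
          trans := by
            rintro x y z (h | h | h) (h' | h' | h')
            · exact Or.inl (r.trans h h')
            · exact Or.inr (Or.inl ⟨hPr _ _ (r.symm h) h'.1, h'.2⟩)
            · exact Or.inr (Or.inr ⟨hQr _ _ (r.symm h) h'.1, h'.2⟩)
            · exact Or.inr (Or.inl ⟨h.1, hPr _ _ h' h.2⟩)
            · exact Or.inr (Or.inl ⟨h.1, h'.2⟩)
            · exact absurd h'.1 (hPQ _ h.2)
            · exact Or.inr (Or.inr ⟨h.1, hQr _ _ h' h.2⟩)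
            · exact absurd h.2 (hPQ _ h'.1)
            · exact Or.inr (Or.inr ⟨h.1, h'.2⟩) } }
  have hr' : ∀ x y, r' x y ↔ (r x y ∨ (P x ∧ P y) ∨ (Q x ∧ Q y)) := fun _ _ => Iff.rfl
  -- it is not good
  have hnot : ¬ BGood G ν r' := by
    intro hg
    have h1 := hmax r' hg
    have h2 : {p : α × α | r p.1 p.2} ⊂ {p : α × α | r' p.1 p.2} :=
      ⟨fun p hp => (hr' _ _).2 (Or.inl hp), fun hsub => hrab (hsub
        (show ((a, b) : α × α) ∈ {p : α × α | r' p.1 p.2} from
          (hr' _ _).2 (Or.inr (Or.inl ⟨Or.inl (r.refl a), Or.inr (r.refl b)⟩))))⟩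
    have h3 := Set.ncard_lt_ncard h2 (Set.toFinite _)
    rw [← Nat.card_coe_set_eq, ← Nat.card_coe_set_eq] at h3
    exact absurd h1 (not_le.2 h3)
  -- connectedness
  have hPa : ∀ x, P x → Con G {z | P z} x a := by
    rintro x (h | h)
    · refine (hr.con x a h).mono le_rfl ?_
      intro z hz
      exact Or.inl (r.trans (r.symm hz) h)
    · have h1 : Con G {z | P z} x b := by
        refine (hr.con x b h).mono le_rfl ?_
        intro z hz
        exact Or.inr (r.trans (r.symm hz) h)
      exact h1.trans (Con.adj hab.symm (Or.inr (r.refl b)) (Or.inl (r.refl a)))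
  have hQa : ∀ x, Q x → Con G {z | Q z} x (ν a) := by
    rintro x (h | h)
    · refine (hr.con x (ν a) h).mono le_rfl ?_
      intro z hz
      exact Or.inl (r.trans (r.symm hz) h)
    · have h1 : Con G {z | Q z} x (ν b) := by
        refine (hr.con x (ν b) h).mono le_rfl ?_
        intro z hz
        exact Or.inr (r.trans (r.symm hz) h)
      exact h1.trans (Con.adj (haut _ _ hab).symm (Or.inr (r.refl (ν b))) (Or.inl (r.refl (ν a))))
  have hcon : ∀ x y, r' x y → Con G {z | r' x z} x y := by
    intro x y hxy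
    rcases (hr' x y).1 hxy with h | ⟨h1, h2⟩ | ⟨h1, h2⟩
    · exact (hr.con x y h).mono le_rfl fun z hz => (hr' _ _).2 (Or.inl hz)
    · refine ((hPa x h1).trans (hPa y h2).symm).mono le_rfl fun z hz => ?_
      exact (hr' _ _).2 (Or.inr (Or.inl ⟨h1, hz⟩))
    · refine ((hQa x h1).trans (hQa y h2).symm).mono le_rfl fun z hz => ?_
      exact (hr' _ _).2 (Or.inr (Or.inr ⟨h1, hz⟩))
  have hnu' : ∀ x y, r' x y → r' (ν x) (ν y) := by
    intro x y hxy
    rcases (hr' x y).1 hxy with h | ⟨h1, h2⟩ | ⟨h1, h2⟩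
    · exact (hr' _ _).2 (Or.inl (hr.nu _ _ h))
    · exact (hr' _ _).2 (Or.inr (Or.inr ⟨hPnu _ h1, hPnu _ h2⟩))
    · exact (hr' _ _).2 (Or.inr (Or.inl ⟨hQnu _ h1, hQnu _ h2⟩))
  have hex : ∃ x y, r' x (ν y) ∧ (x = y ∨ G.Adj x y) := by
    by_contra hcontra
    push Not at hcontra
    exact hnot ⟨hcon, hnu', fun x y hxy => hcontra x y hxy⟩
  obtain ⟨x, y, hxy, hor⟩ := hex
  -- the main case
  have key : ∀ u w, P u → Q w → G.Adj u w → ∃ x' y', G.Adj x' y' ∧ r x' a ∧ r y' (ν b) := by
    rintro u w (hu | hu) (hw | hw) huw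
    · exfalso
      have h1 : r (ν w) a := by
        have := hr.nu _ _ hw
        rwa [hν] at this
      exact (hr.anti u w (r.trans hu (r.symm h1))).2 huw
    · exact ⟨u, w, huw, hu, hw⟩
    · have h1 : r (ν w) a := by
        have := hr.nu _ _ hw
        rwa [hν] at this
      exact ⟨ν w, ν u, (haut _ _ huw).symm, h1, hr.nu _ _ hu⟩
    · exfalso
      have h1 : r (ν w) b := by
        have := hr.nu _ _ hw
        rwa [hν] at this
      exact (hr.anti u w (r.trans hu (r.symm h1))).2 huw
  rcases (hr' _ _).1 hxy with h | ⟨h1, h2⟩ | ⟨h1, h2⟩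
  · have h3 := hr.anti x y h
    rcases hor with h4 | h4
    · exact absurd h4 h3.1
    · exact absurd h4 h3.2
  · have h3 : Q y := by
      have := hPnu _ h2
      rwa [hν] at this
    rcases hor with h4 | h4
    · rw [h4] at h1
      exact absurd h3 (hPQ y h1)
    · exact key x y h1 h3 h4
  · have h3 : P y := by
      have := hQnu _ h2
      rwa [hν] at this
    rcases hor with h4 | h4
    · rw [h4] at h1
      exact absurd h1 (hPQ y h3)
    · exact key y x h3 h1 h4.symm

theorem bags [Fintype α] (G : SimpleGraph α) (ν : α → α) (hν : ∀ x, ν (ν x) = x)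
    (hfix : ∀ x, ν x ≠ x) (haut : ∀ a b, G.Adj a b → G.Adj (ν a) (ν b))
    (hna : ∀ x, ¬ G.Adj x (ν x)) :
    ∃ lam : α → ℤ, (∀ x, lam (ν x) = - lam x) ∧ (∀ x, lam x ≠ 0) ∧
      (∀ x y, lam x = lam y → Con G {z | lam z = lam x} x y) ∧
      (∀ x y, G.Adj x y → lam x ≠ - lam y) ∧
      ∀ x y, G.Adj x y → lam x ≠ lam y → ∃ x' y', G.Adj x' y' ∧ lam x' = lam x ∧ lam y' = - lam y := by
  classical
  -- a maximal good relation
  have hfin : Finite (Setoid α) :=
    Finite.of_injective (fun (r : Setoid α) (a b : α) => r a b) (by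
      intro r r' h
      ext a b
      exact iff_of_eq (congrFun (congrFun h a) b))
  have hbot : BGood G ν ⊥ := by
    refine ⟨?_, ?_, ?_⟩
    · rintro x y rfl
      exact L.Con.refl rfl
    · rintro x y rfl
      rfl
    · rintro a b hab
      have hab' : a = ν b := hab
      refine ⟨fun h => hfix b (by rw [← hab', h]), fun h => hna b ?_⟩
      rw [← hab']
      exact h.symm
  obtain ⟨r, hr, hmax⟩ := Set.exists_max_image {r : Setoid α | BGood G ν r}
    (fun r => Nat.card {p : α × α | r p.1 p.2}) (Set.toFinite _) ⟨⊥, hbot⟩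
  have hr : BGood G ν r := hr
  have hmax : ∀ r' : Setoid α, BGood G ν r' →
      Nat.card {p : α × α | r' p.1 p.2} ≤ Nat.card {p : α × α | r p.1 p.2} :=
    fun r' h => hmax r' h
  -- numbers of the classes
  have : Finite (Quotient r) := Quotient.finite r
  obtain ⟨e, he⟩ : ∃ e : Quotient r → ℕ, Function.Injective e := by
    obtain ⟨n, ⟨e⟩⟩ := Finite.exists_equiv_fin (Quotient r)
    exact ⟨fun z => (e z : ℕ), fun x y h => e.injective (Fin.ext h)⟩
  set q : α → ℕ := fun x => e (Quotient.mk r x) with hq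
  have hqr : ∀ x y, q x = q y ↔ r x y := by
    intro x y
    constructor
    · intro h
      exact Quotient.exact (he h)
    · intro h
      exact congrArg e (Quotient.sound h)
  have hqne : ∀ x, q x ≠ q (ν x) := by
    intro x h
    exact (hr.anti x x ((hqr _ _).1 h)).1 rfl
  set lam : α → ℤ := fun x => if q x < q (ν x) then (q x : ℤ) + 1 else -((q (ν x) : ℤ) + 1)
    with hlam
  have hl : ∀ x, lam x = if q x < q (ν x) then (q x : ℤ) + 1 else -((q (ν x) : ℤ) + 1) :=
    fun _ => rfl
  have hlr : ∀ x y, lam x = lam y ↔ r x y := by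
    intro x y
    rw [hl, hl]
    constructor
    · intro h
      split_ifs at h with h1 h2 h2
      · rw [← hqr]
        omega
      · omega
      · omega
      · have h3 : q (ν x) = q (ν y) := by omega
        have h4 := hr.nu _ _ ((hqr _ _).1 h3)
        rwa [hν, hν] at h4
    · intro h
      have h1 : q x = q y := (hqr _ _).2 h
      have h2 : q (ν x) = q (ν y) := (hqr _ _).2 (hr.nu _ _ h)
      rw [h1, h2]
  have hlnu : ∀ x, lam (ν x) = - lam x := by
    intro x
    rw [hl, hl, hν]
    have h1 := hqne x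
    by_cases h : q x < q (ν x)
    · rw [if_pos h, if_neg (not_lt.2 h.le)]
    · rw [if_neg h, if_pos (lt_of_le_of_ne (not_lt.1 h) h1.symm), neg_neg]
  refine ⟨lam, hlnu, ?_, ?_, ?_, ?_⟩
  · intro x
    rw [hl]
    split_ifs <;> omega
  · intro x y hxy
    refine (hr.con x y ((hlr _ _).1 hxy)).mono le_rfl fun z hz => ?_
    exact (hlr _ _).2 (r.symm hz)
  · intro x y hxy h
    rw [← hlnu, hlr] at h
    exact (hr.anti x y h).2 hxy
  · intro x y hxy h
    rw [ne_eq, hlr] at h
    obtain ⟨x', y', h1, h2, h3⟩ := bags_step G ν hν haut r hr hmax hxy h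
    refine ⟨x', y', h1, (hlr _ _).2 h2, ?_⟩
    rw [← hlnu, hlr]
    exact h3

end Pool.Agent.Work.MP_5f857a_co.M
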