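import Pool.Agent.Work.MP_5f857a_co.L.Geo3

/-!
Definitions for the minor version of MP_5f857a_co: Ky Fan's lemma for centrally symmetric simplicial
polytopes, and equivariant contractions.

`A` is a space of functions on the finite set `α` (for a polytope: the affine functions on its vertices),
`FcA A T`: `T` is a proper face (see L/GeoDefs).

`Supp A T f` : `f ∈ A`, `f ≤ 0`, `f ≠ 0`, the zero set of `f` is `T`.
`Anti A ν`   : `ν` is an involution of `α` under which `A` is invariant, `A` contains the constants and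
               `f + f ∘ ν` is constant for `f ∈ A`.
`Alt lam b T`: the labels of `T` have distinct absolute values and alternate in sign when they are ordered
               by absolute value, the first one is positive iff `b` is even.
-/

set_option autoImplicit false

namespace Pool.Agent.Work.MP_5f857a_co.M

open Pool.Agent.Work.MP_5f857a_co.L

variable {α : Type*}

/-- `f` is a function in `A` whose face is `T` -/
def Supp (A : Submodule ℝ (α → ℝ)) (T : Finset α) (f : α → ℝ) : Prop :=
  f ∈ A ∧ (∀ x, f x ≤ 0) ∧ (∀ x, f x = 0 ↔ x ∈ T) ∧ ∃ x, f x < 0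

theorem fcA_iff {A : Submodule ℝ (α → ℝ)} {T : Finset α} : FcA A T ↔ ∃ f, Supp A T f := by
  constructor
  · rintro ⟨f, hf, h1, h2, h3⟩
    exact ⟨f, hf, h1, h2, h3⟩
  · rintro ⟨f, hf, h1, h2, h3⟩
    exact ⟨f, hf, h1, h2, h3⟩

/-- the antipodal structure -/
structure Anti (A : Submodule ℝ (α → ℝ)) (ν : α → α) : Prop where
  inv : ∀ x, ν (ν x) = x
  one : (fun _ => (1 : ℝ)) ∈ A
  comp : ∀ f ∈ A, (fun x => f (ν x)) ∈ A
  const : ∀ f ∈ A, ∃ c : ℝ, ∀ x, f x + f (ν x) = c

/-- the number of elements of `T` with smaller absolute label -/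
def rk (lam : α → ℤ) (T : Finset α) (t : α) : ℕ := (T.filter fun s => |lam s| < |lam t|).card

/-- the labels of `T` alternate -/
def Alt (lam : α → ℤ) (b : ℕ) (T : Finset α) : Prop :=
  (∀ s ∈ T, ∀ t ∈ T, |lam s| = |lam t| → s = t) ∧ ∀ t ∈ T, (0 < lam t ↔ Even (rk lam T t + b))

end Pool.Agent.Work.MP_5f857a_co.M
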