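import Pool.Agent.Work.MP_5f857a_co.M.MinorF

/-!
From a model of the cross-polytope graph to a model of the complete graph with `[3d/2]` vertices: for every
pair of indices `2j, 2j+1` the bags `(2j, +)` and `(2j+1, -)` are joined to one bag.
-/

set_option autoImplicit false

namespace Pool.Agent.Work.MP_5f857a_co.M

open Pool.Agent.Work.MP_5f857a_co.L

/-- number of the new bag of `(i, s)` -/
def mgF (i : ℕ) (s : Bool) : ℕ :=
  3 * (i / 2) + (if i % 2 = 0 then (if s then 0 else 1) else (if s then 2 else 0))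

theorem mgF_inj {i : ℕ} {s t : Bool} (h : mgF i s = mgF i t) : s = t := by
  unfold mgF at h
  cases s <;> cases t <;> simp only [Bool.false_eq_true, if_true, if_false, reduceCtorEq] at h ⊢ <;>
    split_ifs at h <;> omega

theorem mgF_surj {d m : ℕ} (hm : m < 3 * d / 2) :
    ∃ i s, i < d ∧ mgF i s = m ∧ (i = 2 * (m / 3) ∨ i = 2 * (m / 3) + 1) := by
  have h1 : m % 3 = 0 ∨ m % 3 = 1 ∨ m % 3 = 2 := by omega
  rcases h1 with h | h | h
  · refine ⟨2 * (m / 3), true, by omega, ?_, Or.inl rfl⟩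
    unfold mgF
    rw [if_pos (by omega), if_pos rfl]
    omega
  · refine ⟨2 * (m / 3), false, by omega, ?_, Or.inl rfl⟩
    unfold mgF
    rw [if_pos (by omega), if_neg (by simp)]
    omega
  · refine ⟨2 * (m / 3) + 1, true, by omega, ?_, Or.inr rfl⟩
    unfold mgF
    rw [if_neg (by omega), if_pos rfl]
    omega

private theorem mg_even (j : ℕ) (s : Bool) : mgF (2 * j) s = 3 * j + if s then 0 else 1 := by
  unfold mgF
  rw [if_pos (by omega)]
  have : 2 * j / 2 = j := by omega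
  rw [this]

private theorem mg_odd (j : ℕ) (s : Bool) : mgF (2 * j + 1) s = 3 * j + if s then 2 else 0 := by
  unfold mgF
  rw [if_neg (by omega)]
  have : (2 * j + 1) / 2 = j := by omega
  rw [this]

private theorem mg_adj_lt {d m m' : ℕ} (hm' : m' < 3 * d / 2) (hlt : m < m') :
    ∃ i s j t, i < d ∧ j < d ∧ mgF i s = m ∧ mgF j t = m' ∧ i ≠ j := by
  by_cases hj : m / 3 = m' / 3
  · have h1 : (m % 3 = 0 ∧ m' % 3 = 1) ∨ (m % 3 = 0 ∧ m' % 3 = 2) ∨ (m % 3 = 1 ∧ m' % 3 = 2) := by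
      omega
    rcases h1 with ⟨h, h'⟩ | ⟨h, h'⟩ | ⟨h, h'⟩
    · refine ⟨2 * (m / 3) + 1, false, 2 * (m / 3), false, by omega, by omega, ?_, ?_, by omega⟩
      · rw [mg_odd, if_neg (by simp)]
        omega
      · rw [mg_even, if_neg (by simp)]
        omega
    · refine ⟨2 * (m / 3), true, 2 * (m / 3) + 1, true, by omega, by omega, ?_, ?_, by omega⟩
      · rw [mg_even, if_pos rfl]
        omega
      · rw [mg_odd, if_pos rfl]
        omega
    · refine ⟨2 * (m / 3), false, 2 * (m / 3) + 1, true, by omega, by omega, ?_, ?_, by omega⟩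
      · rw [mg_even, if_neg (by simp)]
        omega
      · rw [mg_odd, if_pos rfl]
        omega
  · obtain ⟨i, s, hi, hi', hi''⟩ := mgF_surj (d := d) (m := m) (by omega)
    obtain ⟨j, t, hj, hj', hj''⟩ := mgF_surj (d := d) (m := m') hm'
    exact ⟨i, s, j, t, hi, hj, hi', hj', by omega⟩

theorem mgF_adj {d m m' : ℕ} (hm : m < 3 * d / 2) (hm' : m' < 3 * d / 2) (hne : m ≠ m') :
    ∃ i s j t, i < d ∧ j < d ∧ mgF i s = m ∧ mgF j t = m' ∧ i ≠ j := by
  rcases lt_or_gt_of_ne hne with h | h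
  · exact mg_adj_lt hm' h
  · obtain ⟨i, s, j, t, h1, h2, h3, h4, h5⟩ := mg_adj_lt hm h
    exact ⟨j, t, i, s, h2, h1, h4, h3, h5.symm⟩

/-- the merged bags -/
theorem merge {α : Type*} (G : SimpleGraph α) (d : ℕ) (B : Fin d → Bool → Set α)
    (h1 : ∀ i s, (B i s).Nonempty ∧ ∀ x ∈ B i s, ∀ y ∈ B i s, Con G (B i s) x y)
    (h2 : ∀ i s j t, (i, s) ≠ (j, t) → Disjoint (B i s) (B j t))
    (h3 : ∀ i s j t, i ≠ j → ∃ x ∈ B i s, ∃ y ∈ B j t, G.Adj x y) :
    ∃ C : Fin (3 * d / 2) → Set α,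
      (∀ m, (C m).Nonempty ∧ ∀ x ∈ C m, ∀ y ∈ C m, Con G (C m) x y) ∧
      (∀ m m', m ≠ m' → Disjoint (C m) (C m')) ∧
      (∀ m m', m ≠ m' → ∃ x ∈ C m, ∃ y ∈ C m', G.Adj x y) ∧
      ∀ m, C m ⊆ ⋃ i, ⋃ s, B i s := by
  let C : Fin (3 * d / 2) → Set α := fun m => {x | ∃ i s, mgF (i : Fin d) s = m ∧ x ∈ B i s}
  have hsub : ∀ m i s, mgF (i : Fin d) s = ((m : Fin (3 * d / 2)) : ℕ) → B i s ⊆ C m :=
    fun m i s h x hx => ⟨i, s, h, hx⟩
  refine ⟨C, ?_, ?_, ?_, ?_⟩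
  · intro m
    constructor
    · obtain ⟨i, s, hi, hi', -⟩ := mgF_surj m.2
      obtain ⟨x, hx⟩ := (h1 ⟨i, hi⟩ s).1
      exact ⟨x, ⟨i, hi⟩, s, hi', hx⟩
    · rintro x ⟨i, s, his, hx⟩ y ⟨j, t, hjt, hy⟩
      by_cases hij : i = j
      · subst hij
        have hst : s = t := mgF_inj (his.trans hjt.symm)
        subst hst
        exact ((h1 i s).2 x hx y hy).mono le_rfl (hsub m i s his)
      · obtain ⟨x', hx', y', hy', hadj⟩ := h3 i s j t hij
        have e1 := ((h1 i s).2 x hx x' hx').mono le_rfl (hsub m i s his)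
        have e2 := ((h1 j t).2 y' hy' y hy).mono le_rfl (hsub m j t hjt)
        exact (e1.trans (Con.adj hadj (hsub m i s his hx') (hsub m j t hjt hy'))).trans e2
  · intro m m' hne
    rw [Set.disjoint_left]
    rintro x ⟨i, s, his, hx⟩ ⟨j, t, hjt, hy⟩
    have hneq : (i, s) ≠ (j, t) := by
      intro h
      rw [Prod.mk.injEq] at h
      apply hne
      apply Fin.ext
      rw [← his, ← hjt, h.1, h.2]
    exact Set.disjoint_left.1 (h2 i s j t hneq) hx hy
  · intro m m' hne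
    obtain ⟨i, s, j, t, hi, hj, his, hjt, hij⟩ := mgF_adj m.2 m'.2 (fun h => hne (Fin.ext h))
    obtain ⟨x, hx, y, hy, hadj⟩ := h3 ⟨i, hi⟩ s ⟨j, hj⟩ t
      (fun h => hij (congrArg Fin.val h))
    exact ⟨x, ⟨_, _, his, hx⟩, y, ⟨_, _, hjt, hy⟩, hadj⟩
  · rintro m x ⟨i, s, _, hx⟩
    exact Set.mem_iUnion.2 ⟨i, Set.mem_iUnion.2 ⟨s, hx⟩⟩

end Pool.Agent.Work.MP_5f857a_co.M
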