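import Pool.Agent.Work.MP_5f857a_co.M.Fan
import Pool.Agent.Work.MP_5f857a_co.M.Bags
import Pool.Agent.Work.MP_5f857a_co.M.AntiF

/-!
MODULE MinorF (S-M): the graph of the `d`-dimensional cross-polytope is a minor of the graph of every centrally
symmetric simplicial `d`-polytope.

PROOF. `G = Gr (FcA (affA V)) ∅` on `α = {x // x ∈ V}`, `ν` the antipodal map; `Cfg (affA V) d` (`affA_cfg`),
`Anti` (`affA_Anti`), `hfix` (`zero_not_mem`: `-x = x` gives `x = 0`), `haut` (`affA_neg` for `{a, b}`), `hna`
(`affA_anti` for the face `{x, ν x}`). Take `lam` from `bags`. `hedge`: if `{x, y}` is a face and `x ≠ y`, then `x`,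
`y` are adjacent in `G`, use (2); if `x = y`: `lam x ≠ - lam x` as `lam x ≠ 0`. `fan` gives an odd number, so
there is a facet `T` with `T.card = d`, `Alt lam 0 T`; enumerate it: `t : Fin d → α` injective, `t i ∈ T`;
`|lam (t i)|` are distinct. `t i`, `t j` (`i ≠ j`) are adjacent in `G` (`FcA_down`). Put
`B i true = {x | lam x = lam (t i)}`, `B i false = {x | lam x = - lam (t i)}` (as subsets of the space:
images under `Subtype.val`). They are nonempty, connected ((1) of `bags`; for `false` apply it to `ν (t i)`),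
disjoint (distinct absolute values, `lam ≠ 0`), `B i false = - B i true`, and for `i ≠ j` any two of them are
joined by an edge: `t i ~ t j` gives (true, true); (3) gives `x' ∈ B i true` adjacent to `y' ∈ B j false`;
apply `ν` to get (false, false) and (false, true). Walks in `G` become walks in `polyGraph V` by `affA_adj`.
-/

set_option autoImplicit false

namespace Pool.Agent.Work.MP_5f857a_co.M

open Pool.Agent.Work.MP_5f857a_co.L

/-- sign of a boolean -/
private def mfSg : Bool → ℤ
  | true => 1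
  | false => -1

private theorem mfSg_not (s : Bool) : mfSg (!s) = - mfSg s := by
  cases s <;> simp [mfSg]

private theorem mfSg_abs (s : Bool) (z : ℤ) : |mfSg s * z| = |z| := by
  cases s <;> simp [mfSg]

private theorem mfSg_inj {s t : Bool} {z : ℤ} (hz : z ≠ 0) (h : mfSg s * z = mfSg t * z) :
    s = t := by
  cases s <;> cases t
  · rfl
  · exfalso
    change (-1 : ℤ) * z = 1 * z at h
    omega
  · exfalso
    change (1 : ℤ) * z = -1 * z at h
    omega
  · rfl

private theorem mfPair {β : Type*} (i1 i2 : DecidableEq β) (x y : β) :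
    @insert β (Finset β) (@Finset.instInsert β i1) x {y} =
      @insert β (Finset β) (@Finset.instInsert β i2) x {y} := by
  have h : i1 = i2 := Subsingleton.elim _ _
  rw [h]

theorem minorF (d : ℕ) (hd : 0 < d) (V : Finset (EuclideanSpace ℝ (Fin d)))
    (hV : ∀ v ∈ V, -v ∈ V)
    (hconv : ∀ v ∈ V, v ∉ convexHull ℝ ((V : Set (EuclideanSpace ℝ (Fin d))) \ {v}))
    (hspan : affineSpan ℝ (V : Set (EuclideanSpace ℝ (Fin d))) = ⊤)
    (hsimp : ∀ (f : EuclideanSpace ℝ (Fin d) →ₗ[ℝ] ℝ) (c : ℝ),
          (∀ x ∈ V, f x ≤ c) → (∃ x ∈ V, f x < c) →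
          AffineIndependent ℝ
            (fun x : {x : EuclideanSpace ℝ (Fin d) // x ∈ V ∧ f x = c} =>
              (x : EuclideanSpace ℝ (Fin d)))) :
    ∃ B : Fin d → Bool → Set (EuclideanSpace ℝ (Fin d)),
      (∀ i s, (B i s).Nonempty ∧ B i s ⊆ V ∧
        ∀ x ∈ B i s, ∀ y ∈ B i s, Con (polyGraph V) (B i s) x y) ∧
      (∀ i s j t, (i, s) ≠ (j, t) → Disjoint (B i s) (B j t)) ∧
      (∀ i s x, x ∈ B i s ↔ -x ∈ B i (!s)) ∧
      ∀ i s j t, i ≠ j → ∃ x ∈ B i s, ∃ y ∈ B j t, (polyGraph V).Adj x y := by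
  classical
  have hC := affA_cfg V hspan hsimp
  have hA := affA_Anti V hV
  set ν : {x // x ∈ V} → {x // x ∈ V} := fun x => ⟨-x.1, hV x.1 x.2⟩ with hνdef
  have h0 := zero_not_mem hd V hV hconv hspan
  have hfix : ∀ x, ν x ≠ x := by
    intro x hx
    apply h0
    have h1 : -x.1 = x.1 := congrArg Subtype.val hx
    have h2 : x.1 = 0 := by
      have h3 : (2 : ℝ) • x.1 = 0 := by
        rw [two_smul]
        nth_rewrite 1 [← h1]
        exact neg_add_cancel _
      exact (smul_eq_zero.1 h3).resolve_left two_ne_zero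
    rw [← h2]
    exact x.2
  have haut : ∀ a b, (Gr (FcA (affA V)) ∅).Adj a b → (Gr (FcA (affA V)) ∅).Adj (ν a) (ν b) := by
    rintro a b ⟨hab, -, -, hF⟩
    refine ⟨fun h => hab ?_, Finset.notMem_empty _, Finset.notMem_empty _, ?_⟩
    · rw [← hA.inv a, h]
      exact hA.inv b
    · have h1 := affA_neg V hV _ hF
      have h2 : (insert a (insert b (∅ : Finset {x // x ∈ V}))).image
          (fun x : {x // x ∈ V} => (⟨-x.1, hV x.1 x.2⟩ : {x // x ∈ V})) =
          insert (ν a) (insert (ν b) ∅) := by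
        rw [Finset.image_insert, Finset.image_insert, Finset.image_empty]
      rw [← h2]
      exact h1
  have hna : ∀ x, ¬ (Gr (FcA (affA V)) ∅).Adj x (ν x) := by
    rintro x ⟨-, -, -, hF⟩
    exact affA_anti V hV _ hF x (Finset.mem_insert_self _ _)
      (Finset.mem_insert_of_mem (Finset.mem_insert_self _ _))
  obtain ⟨lam, hl1, hl2, hl3, hl4, hl5⟩ := bags (Gr (FcA (affA V)) ∅) ν hA.inv hfix haut hna
  have hodd := fan hl1 d (affA V) hC hA (by
    intro x y hF
    by_cases hxy : x = y
    · rw [hxy]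
      intro h
      apply hl2 y
      omega
    · apply hl4
      refine ⟨hxy, Finset.notMem_empty _, Finset.notMem_empty _, ?_⟩
      have e : (insert x (insert y (∅ : Finset {x // x ∈ V}))) = {x, y} := by
        ext z
        simp only [Finset.mem_insert, Finset.mem_singleton, Finset.notMem_empty, or_false]
      rw [e]
      exact Eq.mp (congrArg (FcA (affA V)) (mfPair _ _ x y)) hF)
  obtain ⟨T, hT⟩ := Finset.card_pos.1 hodd.pos
  rw [Finset.mem_filter] at hT
  obtain ⟨-, hTc, hTF, hTA⟩ := hT
  -- enumeration of the facet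
  let e := (T.equivFinOfCardEq hTc).symm
  let t : Fin d → {x // x ∈ V} := fun i => (e i).1
  have htT : ∀ i, t i ∈ T := fun i => (e i).2
  have htinj : Function.Injective t := fun i j h => e.injective (Subtype.ext h)
  have htabs : ∀ i j, |lam (t i)| = |lam (t j)| → i = j := fun i j h =>
    htinj (hTA.1 _ (htT i) _ (htT j) h)
  have hadj : ∀ i j, i ≠ j → (Gr (FcA (affA V)) ∅).Adj (t i) (t j) := by
    intro i j hij
    refine ⟨fun h => hij (htinj h), Finset.notMem_empty _, Finset.notMem_empty _, ?_⟩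
    refine FcA_down hC _ T ?_ hTF
    intro z hz
    simp only [Finset.mem_insert, Finset.notMem_empty, or_false] at hz
    rcases hz with rfl | rfl
    · exact htT i
    · exact htT j
  -- the bags
  let B : Fin d → Bool → Set (EuclideanSpace ℝ (Fin d)) := fun i s =>
    Subtype.val '' {z : {x // x ∈ V} | lam z = mfSg s * lam (t i)}
  have hmem : ∀ i s (z : {x // x ∈ V}), z.1 ∈ B i s ↔ lam z = mfSg s * lam (t i) := by
    intro i s z
    constructor
    · rintro ⟨z', hz', h⟩
      rw [← Subtype.ext h]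
      exact hz'
    · intro h
      exact ⟨z, h, rfl⟩
  have hBV : ∀ i s x, x ∈ B i s → x ∈ V := by
    rintro i s x ⟨z, _, rfl⟩
    exact z.2
  refine ⟨B, ?_, ?_, ?_, ?_⟩
  · intro i s
    refine ⟨?_, fun x hx => hBV i s x hx, ?_⟩
    · cases s with
      | true => exact ⟨(t i).1, (hmem i true (t i)).2 (by simp [mfSg])⟩
      | false => exact ⟨(ν (t i)).1, (hmem i false _).2 (by simp [mfSg, hl1])⟩
    · rintro x ⟨z, hz, rfl⟩ y ⟨z', hz', rfl⟩
      obtain ⟨p, hp⟩ := hl3 z z' (by rw [hz, hz'])
      let φ : (Gr (FcA (affA V)) ∅) →g polyGraph V :=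
        ⟨Subtype.val, fun {a b} h => affA_adj V a b h⟩
      refine ⟨p.map φ, fun w hw => ?_⟩
      rw [SimpleGraph.Walk.support_map, List.mem_map] at hw
      obtain ⟨w', hw', rfl⟩ := hw
      refine ⟨w', ?_, rfl⟩
      have h1 : lam w' = lam z := hp w' hw'
      show lam w' = _
      rw [h1]
      exact hz
  · intro i s j s' hne
    rw [Set.disjoint_left]
    rintro x ⟨z, hz, rfl⟩ hx
    rw [hmem] at hx
    have hz : lam z = mfSg s * lam (t i) := hz
    rw [hz] at hx
    have h1 : |lam (t i)| = |lam (t j)| := by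
      rw [← mfSg_abs s, hx, mfSg_abs]
    have h2 := htabs i j h1
    subst h2
    exact hne (by rw [mfSg_inj (hl2 _) hx])
  · intro i s x
    constructor
    · rintro ⟨z, hz, rfl⟩
      have hz : lam z = mfSg s * lam (t i) := hz
      refine ⟨ν z, ?_, rfl⟩
      show lam (ν z) = _
      rw [hl1, hz, mfSg_not]
      ring
    · rintro ⟨z, hz, hzx⟩
      have hz : lam z = mfSg (!s) * lam (t i) := hz
      refine ⟨ν z, ?_, ?_⟩
      · show lam (ν z) = _
        rw [hl1, hz, mfSg_not]
        ring
      · show -z.1 = x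
        rw [hzx, neg_neg]
  · intro i s j s' hij
    have hlne : lam (t i) ≠ lam (t j) := fun h => hij (htabs i j (by rw [h]))
    cases s with
    | true =>
      cases s' with
      | true =>
        exact ⟨(t i).1, (hmem i true _).2 (by simp [mfSg]), (t j).1,
          (hmem j true _).2 (by simp [mfSg]), affA_adj V _ _ (hadj i j hij)⟩
      | false =>
        obtain ⟨x', y', h1, h2, h3⟩ := hl5 (t i) (t j) (hadj i j hij) hlne
        exact ⟨x'.1, (hmem i true _).2 (by simp [mfSg, h2]), y'.1,
          (hmem j false _).2 (by simp [mfSg, h3]), affA_adj V _ _ h1⟩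
    | false =>
      cases s' with
      | true =>
        obtain ⟨x', y', h1, h2, h3⟩ := hl5 (t j) (t i) (hadj i j hij).symm hlne.symm
        exact ⟨y'.1, (hmem i false _).2 (by simp [mfSg, h3]), x'.1,
          (hmem j true _).2 (by simp [mfSg, h2]), (affA_adj V _ _ h1).symm⟩
      | false =>
        exact ⟨(ν (t i)).1, (hmem i false _).2 (by simp [mfSg, hl1]), (ν (t j)).1,
          (hmem j false _).2 (by simp [mfSg, hl1]), affA_adj V _ _ (haut _ _ (hadj i j hij))⟩

end Pool.Agent.Work.MP_5f857a_co.M
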