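import Pool.Agent.Work.MP_5f857a_co.M.Defs

/-!
MODULE SimpLem (M, elementary combinatorics): in a finite set `T` of labelled elements without complementary
labels, the number of `t ∈ T` such that `T \ t` is alternating (first sign +) is odd iff `T` is alternating
(first sign + or first sign -). `Alt lam 0` = first sign +, `Alt lam 1` = first sign -.

PROOF.
(1) `alt_congr`: `Alt lam b T` depends only on `b` mod 2 (`Alt lam (b + 2) T ↔ Alt lam b T`).
(2) `alt_insert`: if `m ∉ S` and `|lam m| < |lam s|` for all `s ∈ S`, then
`Alt lam b (insert m S) ↔ (0 < lam m ↔ Even b) ∧ Alt lam (b + 1) S`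
(`rk (insert m S) m = 0`, `rk (insert m S) s = rk S s + 1` for `s ∈ S`).
(3) claim for `T` on which `|lam|` is injective: by induction (`Finset.induction_on_min_value` for
`|lam|`, or strong induction on the card, removing the element `m` with smallest `|lam|`), for both values of
`b` simultaneously: `#{t ∈ T | Alt b (T.erase t)}` is odd iff (`Alt 0 T` or `Alt 1 T`).
`T = ∅`: both sides false: the number is 0 and... NOTE `Alt b ∅` holds, so `T = ∅` is excluded
(`T.Nonempty`); start with `T = {m}`: the number is 1, and `Alt 0 {m}` or `Alt 1 {m}` holds.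
Step `T = insert m S`, `S` nonempty: `T.erase m = S`; for `t ∈ S`, `T.erase t = insert m (S.erase t)`, so
`Alt b (T.erase t) ↔ (0 < lam m ↔ Even b) ∧ Alt (b + 1) (S.erase t)`. So the number is
`[Alt b S] + [0 < lam m ↔ Even b] * #{t ∈ S | Alt (b + 1) (S.erase t)}` which by induction is, mod 2,
`[Alt b S] + [0 < lam m ↔ Even b] * ([Alt 0 S] + [Alt 1 S])`; note that `Alt 0 S` and `Alt 1 S` exclude each
other for nonempty `S`. If `0 < lam m ↔ Even b`: this is `[Alt (b + 1) S] = [Alt b T]`, and `Alt (b + 1) T` is
false. Otherwise it is `[Alt b S] = [Alt (b + 1) T]`, and `Alt b T` is false.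
(4) `T` on which `|lam|` is not injective: `s ≠ s'` in `T` with `|lam s| = |lam s'|`, so `lam s = lam s'`
(no complementary labels). `Alt b T` is false for all `b`. For `t ≠ s, s'` the set `T.erase t` still
contains both, so `Alt 0 (T.erase t)` is false; and `Alt 0 (T.erase s) ↔ Alt 0 (T.erase s')` (exchange `s` and
`s'`: same labels). So the number is 0 or 2.
-/

set_option autoImplicit false

namespace Pool.Agent.Work.MP_5f857a_co.M

open Pool.Agent.Work.MP_5f857a_co.L

variable {α : Type*}

/-- first sign + and first sign - exclude each other -/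
theorem alt_excl {lam : α → ℤ} {T : Finset α} (hT : T.Nonempty) (h0 : Alt lam 0 T) :
    ¬ Alt lam 1 T := by
  intro h1
  obtain ⟨t, ht⟩ := hT
  have h2 := h0.2 t ht
  have h3 := h1.2 t ht
  rw [h2, add_zero, Nat.even_add_one] at h3
  by_cases h : Even (rk lam T t)
  · exact (h3.1 h) h
  · exact h (h3.2 h)

private theorem SL_congr {lam : α → ℤ} (b : ℕ) (T : Finset α) :
    Alt lam (b + 2) T ↔ Alt lam b T := by
  have h : ∀ r : ℕ, Even (r + (b + 2)) ↔ Even (r + b) := by
    intro r
    rw [← add_assoc, Nat.even_add (n := 2)]
    simp
  unfold Alt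
  simp only [h]

private theorem SL_excl {lam : α → ℤ} {b : ℕ} {T : Finset α} (hT : T.Nonempty)
    (h0 : Alt lam b T) : ¬ Alt lam (b + 1) T := by
  intro h1
  obtain ⟨t, ht⟩ := hT
  have h2 := h0.2 t ht
  have h3 := h1.2 t ht
  rw [h2, ← add_assoc, Nat.even_add_one] at h3
  by_cases h : Even (rk lam T t + b)
  · exact (h3.1 h) h
  · exact h (h3.2 h)

private theorem SL_insert [DecidableEq α] {lam : α → ℤ} {b : ℕ} {S : Finset α} {m : α}
    (hm : m ∉ S) (hlt : ∀ s ∈ S, |lam m| < |lam s|) :
    Alt lam b (insert m S) ↔ (0 < lam m ↔ Even b) ∧ Alt lam (b + 1) S := by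
  have h1 : rk lam (insert m S) m = 0 := by
    unfold rk
    rw [Finset.card_eq_zero, Finset.filter_eq_empty_iff]
    intro s hs
    rcases Finset.mem_insert.1 hs with h | h
    · rw [h]
      exact lt_irrefl _
    · exact not_lt.2 (hlt s h).le
  have h2 : ∀ s ∈ S, rk lam (insert m S) s = rk lam S s + 1 := by
    intro s hs
    unfold rk
    rw [Finset.filter_insert, if_pos (hlt s hs), Finset.card_insert_of_notMem]
    intro h
    exact hm (Finset.mem_filter.1 h).1
  constructor
  · rintro ⟨h3, h4⟩
    refine ⟨?_, fun s hs t ht => h3 s (Finset.mem_insert_of_mem hs) t (Finset.mem_insert_of_mem ht),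
      fun t ht => ?_⟩
    · have h5 := h4 m (Finset.mem_insert_self m S)
      rw [h1, zero_add] at h5
      exact h5
    · have h5 := h4 t (Finset.mem_insert_of_mem ht)
      rw [h2 t ht] at h5
      rw [h5, show rk lam S t + 1 + b = rk lam S t + (b + 1) by ring]
  · rintro ⟨h3, h4, h5⟩
    refine ⟨?_, fun t ht => ?_⟩
    · intro s hs t ht hst
      rcases Finset.mem_insert.1 hs with h | h
      · rcases Finset.mem_insert.1 ht with h' | h'
        · rw [h, h']
        · exfalso
          have := hlt t h'
          rw [h] at hst
          omega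
      · rcases Finset.mem_insert.1 ht with h' | h'
        · exfalso
          have := hlt s h
          rw [h'] at hst
          omega
        · exact h4 s h t h' hst
    · rcases Finset.mem_insert.1 ht with h | h
      · subst h
        rw [h1, zero_add]
        exact h3
      · rw [h2 t h, h5 t h, show rk lam S t + 1 + b = rk lam S t + (b + 1) by ring]

open Classical in
private theorem SL_main {lam : α → ℤ} (T : Finset α) :
    (∀ s ∈ T, ∀ t ∈ T, |lam s| = |lam t| → s = t) → T.Nonempty → ∀ b : ℕ,
      (Odd (T.filter fun t => Alt lam b (T.erase t)).card ↔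
        (Alt lam b T ∨ Alt lam (b + 1) T)) := by
  induction T using Finset.induction_on_min_value (fun t => |lam t|) with
  | empty => intro _ h; exact absurd h Finset.not_nonempty_empty
  | insert m S hm hle ih =>
    intro hinj _ b
    have hlt : ∀ s ∈ S, |lam m| < |lam s| := by
      intro s hs
      refine lt_of_le_of_ne (hle s hs) fun h => hm ?_
      rw [hinj m (Finset.mem_insert_self m S) s (Finset.mem_insert_of_mem hs) h]
      exact hs
    rw [Finset.filter_insert, Finset.erase_insert hm]
    have hfil : (S.filter fun t => Alt lam b ((insert m S).erase t)) =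
        S.filter fun t => (0 < lam m ↔ Even b) ∧ Alt lam (b + 1) (S.erase t) := by
      apply Finset.filter_congr
      intro t ht
      have hne : m ≠ t := fun h => hm (h ▸ ht)
      rw [Finset.erase_insert_of_ne hne]
      exact SL_insert (fun h => hm (Finset.mem_of_mem_erase h))
        (fun s hs => hlt s (Finset.mem_of_mem_erase hs))
    rw [hfil, SL_insert hm hlt, SL_insert hm hlt, SL_congr]
    have hpar : (0 < lam m ↔ Even (b + 1)) ↔ ¬ (0 < lam m ↔ Even b) := by
      rw [Nat.even_add_one]
      tauto
    rw [hpar]
    have hcard : ∀ F : Finset α, m ∉ F → (if Alt lam b S then insert m F else F).card =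
        (if Alt lam b S then 1 else 0) + F.card := by
      intro F hF
      split_ifs
      · rw [Finset.card_insert_of_notMem hF, add_comm]
      · rw [zero_add]
    rw [hcard _ (fun h => hm (Finset.mem_filter.1 h).1)]
    rcases S.eq_empty_or_nonempty with hS | hS
    · subst hS
      have h1 : ∀ c : ℕ, Alt lam c (∅ : Finset α) := fun c => ⟨by simp, by simp⟩
      simp only [h1, if_true, Finset.filter_empty, Finset.card_empty, and_true, add_zero]
      exact ⟨fun _ => Classical.em _, fun _ => odd_one⟩
    · have ih' := ih (fun s hs t ht => hinj s (Finset.mem_insert_of_mem hs) t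
        (Finset.mem_insert_of_mem ht)) hS (b + 1)
      rw [SL_congr] at ih'
      by_cases hQ : (0 < lam m ↔ Even b)
      · simp only [hQ, true_and, not_true_eq_false, false_and, or_false]
        by_cases hb : Alt lam b S
        · have hb' := SL_excl hS hb
          rw [if_pos hb, add_comm, Nat.odd_add_one, ih']
          constructor
          · intro h
            exact absurd (Or.inr hb) h
          · intro h
            exact absurd h hb'
        · rw [if_neg hb, zero_add, ih']
          constructor
          · rintro (h | h)
            · exact h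
            · exact absurd h hb
          · exact Or.inl
      · have h2 : (S.filter fun t => (0 < lam m ↔ Even b) ∧ Alt lam (b + 1) (S.erase t)) = ∅ := by
          rw [Finset.filter_eq_empty_iff]
          intro t _ h
          exact hQ h.1
        rw [h2, Finset.card_empty, add_zero]
        simp only [hQ, false_and, false_or, not_false_eq_true, true_and]
        by_cases hb : Alt lam b S
        · simp [hb]
        · simp [hb]

private theorem SL_map {lam : α → ℤ} {b : ℕ} {T : Finset α} (σ : Equiv.Perm α)
    (hσ : ∀ x, lam (σ x) = lam x) (h : Alt lam b T) : Alt lam b (T.map σ.toEmbedding) := by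
  have hrk : ∀ t, rk lam (T.map σ.toEmbedding) (σ t) = rk lam T t := by
    intro t
    unfold rk
    rw [Finset.filter_map, Finset.card_map]
    congr 1
    apply Finset.filter_congr
    intro s _
    simp only [Function.comp, Equiv.coe_toEmbedding, hσ]
  refine ⟨?_, ?_⟩
  · intro s hs t ht hst
    rw [Finset.mem_map] at hs ht
    obtain ⟨s', hs', rfl⟩ := hs
    obtain ⟨t', ht', rfl⟩ := ht
    simp only [Equiv.coe_toEmbedding, hσ] at hst ⊢
    rw [h.1 s' hs' t' ht' hst]
  · intro t ht
    rw [Finset.mem_map] at ht
    obtain ⟨t', ht', rfl⟩ := ht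
    simp only [Equiv.coe_toEmbedding, hσ, hrk]
    exact h.2 t' ht'

open Classical in
theorem simpLem {lam : α → ℤ} {T : Finset α} (hT : T.Nonempty)
    (hc : ∀ s ∈ T, ∀ t ∈ T, lam s ≠ - lam t) :
    Odd (T.filter fun t => Alt lam 0 (T.erase t)).card ↔ (Alt lam 0 T ∨ Alt lam 1 T) := by
  by_cases hinj : ∀ s ∈ T, ∀ t ∈ T, |lam s| = |lam t| → s = t
  · exact SL_main T hinj hT 0
  · push Not at hinj
    obtain ⟨s, hs, s', hs', habs, hne⟩ := hinj
    have hlam : lam s = lam s' := by
      rcases abs_eq_abs.1 habs with h | h
      · exact h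
      · exact absurd h (hc s hs s' hs')
    have h1 : ¬ (Alt lam 0 T ∨ Alt lam 1 T) := by
      rintro (h | h)
      · exact hne (h.1 s hs s' hs' habs)
      · exact hne (h.1 s hs s' hs' habs)
    rw [iff_false_right h1]
    -- exchange `s` and `s'`
    have hσ : ∀ x, lam (Equiv.swap s s' x) = lam x := by
      intro x
      by_cases h2 : x = s
      · rw [h2, Equiv.swap_apply_left, hlam]
      · by_cases h3 : x = s'
        · rw [h3, Equiv.swap_apply_right, hlam]
        · rw [Equiv.swap_apply_of_ne_of_ne h2 h3]
    have hmap : ∀ a a' : α, a ∈ T → a' ∈ T → (T.erase a).map (Equiv.swap a a').toEmbedding =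
        T.erase a' := by
      intro a a' ha ha'
      ext x
      rw [Finset.mem_map_equiv, Equiv.symm_swap, Finset.mem_erase, Finset.mem_erase]
      by_cases h2 : x = a
      · rw [h2, Equiv.swap_apply_left]
        constructor
        · rintro ⟨h3, _⟩
          exact ⟨h3.symm, ha⟩
        · rintro ⟨h3, _⟩
          exact ⟨h3.symm, ha'⟩
      · by_cases h3 : x = a'
        · rw [h3, Equiv.swap_apply_right]
          simp
        · rw [Equiv.swap_apply_of_ne_of_ne h2 h3]
          simp [h2, h3]
    have hiff : Alt lam 0 (T.erase s) ↔ Alt lam 0 (T.erase s') := by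
      constructor
      · intro h
        rw [← hmap s s' hs hs']
        exact SL_map _ hσ h
      · intro h
        rw [← hmap s' s hs' hs, Equiv.swap_comm]
        exact SL_map _ hσ h
    have hsub : ∀ t ∈ T, Alt lam 0 (T.erase t) → t = s ∨ t = s' := by
      intro t _ h
      by_contra hcon
      push Not at hcon
      exact hne (h.1 s (Finset.mem_erase.2 ⟨hcon.1.symm, hs⟩) s'
        (Finset.mem_erase.2 ⟨hcon.2.symm, hs'⟩) habs)
    by_cases hA : Alt lam 0 (T.erase s)
    · have h2 : (T.filter fun t => Alt lam 0 (T.erase t)) = {s, s'} := by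
        ext t
        rw [Finset.mem_filter, Finset.mem_insert, Finset.mem_singleton]
        constructor
        · rintro ⟨h3, h4⟩
          exact hsub t h3 h4
        · rintro (h3 | h3)
          · rw [h3]
            exact ⟨hs, hA⟩
          · rw [h3]
            exact ⟨hs', hiff.1 hA⟩
      rw [h2, Finset.card_pair hne]
      decide
    · have h2 : (T.filter fun t => Alt lam 0 (T.erase t)) = ∅ := by
        rw [Finset.filter_eq_empty_iff]
        intro t ht h
        rcases hsub t ht h with h3 | h3
        · rw [h3] at h
          exact hA h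
        · rw [h3] at h
          exact hA (hiff.2 h)
      rw [h2]
      simp

end Pool.Agent.Work.MP_5f857a_co.M
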